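import Pool.Agent.T9h20.TD.Blocks

/-!
# The smoothed real tau-conjecture with absent coefficients: assembly
-/

set_option autoImplicit false

open MeasureTheory Set
open scoped ENNReal NNReal

namespace Pool.Agent.T9h20.TD

open Pool.Agent.T9h20.TA (mon fn dfn IsSel sel mx gg ta hh kap upd PP continuous_mon
  hasDerivAt_mon hasDerivAt_fn sel_unique mon_le_mx isSel_sel hh_sel continuous_mx SMom SKap
  SDrift SRice SMeas SLogD SFixP SFixQ fn_update dfn_update measurable_kap measurable_ta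
  lintegral_lin isProb_PP sum_lintegral_le th th_pos th_le bd2 encard_iUnion_le' num_bound
  sRice')
open Pool.Agent.T9h20.TB (rho eta K0 U0 D0 isClosed_K0 isOpen_U0 measurable_D0
  continuous_fn₂ continuous_upd upd_upd upd_same upd_ne inr_ne measurable_eta measurable_rho
  measurable_zpow lintegral_eta th_mul_le' split_lin J0 card_J0_le measurable_count0)
open Pool.Agent.T9h20.TC (PR dPR FF dFF hasDerivAt_PR hasDerivAt_FF PR_upd dPR_upd KK UU
  isClosed_KK isOpen_UU G1 dG1 R1 dR1 D1 hasDerivAt_D1 continuous_G1 continuous_R1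
  measurable_D1 FF_split G1_upd R1_upd D1_upd SS pp sum_SS prod_SS zz lam ZZ II z0 lam0 Z0 I0
  sel_of_mem dPR_div pos_part_le neg_part_le card_SS_le th_mul_le1 inl_notMem measurable_ZZ
  measurable_II measurable_Z0 measurable_I0 bd bd0 bd3 I0_zero ww sum_ww w0 sum_w0 two_div_th
  measurable_prod_mx measurable_drift measurable_drift0 measurable_sum_kap measurable_bd
  measurable_bd0 Good good_zero good_of_bdd measurable_count1 measurable_count num_bound'
  sFixP' sFixQ' FF_scale scale_count dens_pos dens_scale mom_scale)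

section asm

variable {k q t : ℕ}

/-- Rice inequality for the pivot `i`, dominant coefficient `s`. -/
theorem rice1 (hR : SRice) [NeZero t] (c0 K : ℝ) (be : Fin q → ℕ) (al : Fin k → Fin q → ℕ)
    (c a : Fin k ⊕ Fin q → Fin t → ℝ)
    (hc : ∀ b, ∃ s, c b s ≠ 0) (μ : Fin k ⊕ Fin q → Fin t → Measure ℝ)
    [∀ b s, IsProbabilityMeasure (μ b s)] (B : ℝ≥0)
    (hB : ∀ b s, μ b s ≤ (B : ℝ≥0∞) • (volume : Measure ℝ)) (i : Fin k) (s : Fin t) :
    ∫⁻ v, (({y : ℝ | (v, y) ∈ KK c0 K be al c a i s ∧ (v, y) ∈ UU al c a i s ∧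
        FF c0 be al c a v y = 0}.encard : ℕ∞) : ℝ≥0∞) ∂(PP μ) ≤
      B * ∫⁻ y, ∫⁻ v, (KK c0 K be al c a i s ∩ UU al c a i s).indicator
        (fun p => ‖D1 c0 be al c a i s p.1 p.2‖ₑ) (v, y) ∂(PP μ) := by
  have h := hR (Fin k ⊕ Fin q) t μ B (Sum.inl i) s (hB _ _) (KK c0 K be al c a i s)
    (UU al c a i s) (G1 al c a i s) (R1 c0 be al c a i s) (D1 c0 be al c a i s)
    (isClosed_KK c0 K be al c a i s) (isOpen_UU al c a i s)
    (continuous_G1 al c a i s) (continuous_R1 c0 be al c a i s) (measurable_D1 c0 be al c a i s)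
    (fun v x y => by simp only [KK, Set.mem_ofPred_eq, PR_upd])
    (fun v x y => by simp only [UU, Set.mem_ofPred_eq, PR_upd])
    (G1_upd al c a i s) (R1_upd c0 be al c a i s) (D1_upd c0 be al c a i s)
    (fun v y hK hU => by
      have hG : G1 al c a i s v y ≠ 0 := mul_ne_zero (mon_ne_of_dom (hc _) hK.2) hU.1
      exact ⟨hG, hasDerivAt_D1 c0 be al c a i s v y hG⟩)
  simp only [FF_split] at h
  exact h

variable [NeZero t]

theorem zz_pos (al : Fin k → Fin q → ℕ) {c a : Fin k ⊕ Fin q → Fin t → ℝ}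
    (hc : ∀ b, ∃ s, c b s ≠ 0) (l i : Fin k) (y : ℝ) : 0 < zz al c a l i y := by
  unfold zz
  refine mul_pos (div_pos (mx_pos (hc _) y) (mx_pos (hc _) y)) (Finset.prod_pos fun b _ => ?_)
  exact zpow_pos (mx_pos (hc _) y) _

theorem z0_pos {c0 K : ℝ} (hc0 : c0 ≠ 0) (hK : 0 < K) (be : Fin q → ℕ)
    (al : Fin k → Fin q → ℕ) {c a : Fin k ⊕ Fin q → Fin t → ℝ}
    (hc : ∀ b, ∃ s, c b s ≠ 0) (i : Fin k) (y : ℝ) : 0 < z0 c0 K be al c a i y := by
  unfold z0
  refine mul_pos (div_pos (div_pos (abs_pos.mpr hc0) hK) (mx_pos (hc _) y))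
    (Finset.prod_pos fun b _ => ?_)
  exact zpow_pos (mx_pos (hc _) y) _

theorem prod_eq (x z : Fin q → ℕ) {c a : Fin k ⊕ Fin q → Fin t → ℝ}
    (hc : ∀ b, ∃ s, c b s ≠ 0) {v : Fin k ⊕ Fin q → Fin t → ℝ} {y : ℝ}
    (hn : ∀ b, fn (c b) (a b) (v b) y ≠ 0) :
    (∏ b ∈ SS x z, mx (c b) (a b) y ^ pp x z b) *
      ∏ b ∈ SS x z, rho c a v y b ^ pp x z b = PR x c a v y / PR z c a v y := by
  rw [← Finset.prod_mul_distrib]
  have h2 : ∀ b ∈ SS x z, mx (c b) (a b) y ^ pp x z b * rho c a v y b ^ pp x z b =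
      fn (c b) (a b) (v b) y ^ pp x z b := by
    intro b _
    rw [fn_rho hc, mul_zpow]
  rw [Finset.prod_congr rfl h2, prod_SS x z (fun b => fn (c b) (a b) (v b) y)
    fun j => hn _]
  rfl

theorem ZZ_eq (al : Fin k → Fin q → ℕ) {c a : Fin k ⊕ Fin q → Fin t → ℝ}
    (hc : ∀ b, ∃ s, c b s ≠ 0) {v : Fin k ⊕ Fin q → Fin t → ℝ} {y : ℝ}
    (hn : ∀ b, fn (c b) (a b) (v b) y ≠ 0) (l i : Fin k) :
    ZZ al c a v l i y = (mx (c (Sum.inl l)) (a (Sum.inl l)) y * PR (al l) c a v y) /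
      (mx (c (Sum.inl i)) (a (Sum.inl i)) y * PR (al i) c a v y) := by
  unfold ZZ zz
  rw [mul_assoc, prod_eq (al l) (al i) hc hn, div_mul_div_comm]

theorem Z0_eq (c0 K : ℝ) (be : Fin q → ℕ) (al : Fin k → Fin q → ℕ)
    {c a : Fin k ⊕ Fin q → Fin t → ℝ}
    (hc : ∀ b, ∃ s, c b s ≠ 0) {v : Fin k ⊕ Fin q → Fin t → ℝ} {y : ℝ}
    (hn : ∀ b, fn (c b) (a b) (v b) y ≠ 0) (i : Fin k) :
    Z0 c0 K be al c a v i y = (|c0| * PR be c a v y) /
      (K * (mx (c (Sum.inl i)) (a (Sum.inl i)) y * PR (al i) c a v y)) := by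
  unfold Z0 z0
  rw [mul_assoc, prod_eq be (al i) hc hn, div_div, div_mul_div_comm, mul_assoc K]

theorem abs_ZZ_le {c0 K : ℝ} {be : Fin q → ℕ} (al : Fin k → Fin q → ℕ)
    {c a : Fin k ⊕ Fin q → Fin t → ℝ}
    (hc : ∀ b, ∃ s, c b s ≠ 0) {v : Fin k ⊕ Fin q → Fin t → ℝ} {y : ℝ} {i : Fin k} {s : Fin t}
    (hK : (v, y) ∈ KK c0 K be al c a i s) (hn : ∀ b, fn (c b) (a b) (v b) y ≠ 0)
    (l : Fin k) : |ZZ al c a v l i y| ≤ 1 := by
  rw [ZZ_eq al hc hn, abs_div]
  exact div_le_one_of_le₀ (hK.1.1 l) (abs_nonneg _)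

theorem abs_Z0_le {c0 K : ℝ} (hK0 : 0 < K) {be : Fin q → ℕ} (al : Fin k → Fin q → ℕ)
    {c a : Fin k ⊕ Fin q → Fin t → ℝ}
    (hc : ∀ b, ∃ s, c b s ≠ 0) {v : Fin k ⊕ Fin q → Fin t → ℝ} {y : ℝ} {i : Fin k} {s : Fin t}
    (hK : (v, y) ∈ KK c0 K be al c a i s) (hn : ∀ b, fn (c b) (a b) (v b) y ≠ 0) :
    |Z0 c0 K be al c a v i y| ≤ 1 := by
  rw [Z0_eq c0 K be al hc hn, abs_div, abs_mul K, abs_of_pos hK0]
  refine div_le_one_of_le₀ ?_ (mul_nonneg hK0.le (abs_nonneg _))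
  have h := hK.1.2
  rw [abs_mul] at h
  rw [abs_mul, abs_abs]
  exact h

/-- The main pointwise inequality. -/
theorem D1_le (hL : SLogD) {c0 K : ℝ} (hK0 : 0 < K) {be : Fin q → ℕ}
    {al : Fin k → Fin q → ℕ} {c a : Fin k ⊕ Fin q → Fin t → ℝ}
    (hc : ∀ b, ∃ s, c b s ≠ 0)
    {v : Fin k ⊕ Fin q → Fin t → ℝ} {y : ℝ} {i : Fin k} {s : Fin t}
    (hK : (v, y) ∈ KK c0 K be al c a i s) (hU : (v, y) ∈ UU al c a i s)
    (hn : ∀ b, fn (c b) (a b) (v b) y ≠ 0) :
    ‖D1 c0 be al c a i s v y‖ₑ ≤ ENNReal.ofReal K * ‖I0 c0 K be al c a v i y‖ₑ +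
      (‖eta c a v y (Sum.inl i)‖ₑ +
      ∑ l ∈ Finset.univ.erase i, ‖II al c a v l i y‖ₑ) := by
  have hs := sel_of_mem hK hU
  have hms : mon (c (Sum.inl i)) (a (Sum.inl i)) s y ≠ 0 :=
    mon_ne_of_dom (hc (Sum.inl i)) hK.2
  have hG : G1 al c a i s v y ≠ 0 := mul_ne_zero hms hU.1
  have hD := hasDerivAt_D1 c0 be al c a i s v y hG
  have hP : ∀ x : Fin q → ℕ, PR x c a v y ≠ 0 := by
    intro x
    unfold PR
    exact Finset.prod_ne_zero_iff.mpr fun r _ => pow_ne_zero _ (hn _)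
  -- the alternative expression
  set w : ℝ → ℝ := mon (c (Sum.inl i)) (a (Sum.inl i)) s with hw
  set qq : Fin k → ℝ → ℝ := fun l z => fn (c (Sum.inl l)) (a (Sum.inl l)) (v (Sum.inl l)) z *
    PR (al l) c a v z / (w z * PR (al i) c a v z) with hq
  set q0 : ℝ → ℝ := fun z => c0 * (1 * PR be c a v z / (w z * PR (al i) c a v z)) with hq0
  set f0 : ℝ → ℝ := fn (c (Sum.inl i)) (a (Sum.inl i)) (Function.update (v (Sum.inl i)) s 0)
    with hf0
  have hq' : ∀ l, HasDerivAt (qq l) (qq l y *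
      (dfn (c (Sum.inl l)) (a (Sum.inl l)) (v (Sum.inl l)) y /
      fn (c (Sum.inl l)) (a (Sum.inl l)) (v (Sum.inl l)) y +
      dPR (al l) c a v y / PR (al l) c a v y -
      (a (Sum.inl i) s * w y) / w y - dPR (al i) c a v y / PR (al i) c a v y)) y := by
    intro l
    have h := hL 1 (fun _ => PR (al l) c a v) (fun _ => PR (al i) c a v)
      (fun _ => dPR (al l) c a v y) (fun _ => dPR (al i) c a v y)
      (fn (c (Sum.inl l)) (a (Sum.inl l)) (v (Sum.inl l))) w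
      (dfn (c (Sum.inl l)) (a (Sum.inl l)) (v (Sum.inl l)) y)
      (a (Sum.inl i) s * w y) y (fun _ => hasDerivAt_PR (al l) c a v y)
      (fun _ => hasDerivAt_PR (al i) c a v y)
      (hasDerivAt_fn _ _ _ y) (hasDerivAt_mon _ _ s y) (fun _ => hP (al l))
      (fun _ => hP (al i)) (hn _) hms
    simp only [Finset.univ_unique, Finset.prod_singleton, Finset.sum_singleton] at h
    exact h
  have hq0' : HasDerivAt q0 (c0 * (1 * PR be c a v y / (w y * PR (al i) c a v y) *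
      (0 / 1 + dPR be c a v y / PR be c a v y -
      (a (Sum.inl i) s * w y) / w y - dPR (al i) c a v y / PR (al i) c a v y))) y := by
    have h := hL 1 (fun _ => PR be c a v) (fun _ => PR (al i) c a v)
      (fun _ => dPR be c a v y) (fun _ => dPR (al i) c a v y)
      (fun _ => 1) w 0
      (a (Sum.inl i) s * w y) y (fun _ => hasDerivAt_PR be c a v y)
      (fun _ => hasDerivAt_PR (al i) c a v y)
      (hasDerivAt_const y 1) (hasDerivAt_mon _ _ s y) (fun _ => hP be)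
      (fun _ => hP (al i)) one_ne_zero hms
    simp only [Finset.univ_unique, Finset.prod_singleton, Finset.sum_singleton] at h
    exact h.const_mul c0
  have hf' : HasDerivAt (fun z => f0 z / w z)
      ((dfn (c (Sum.inl i)) (a (Sum.inl i)) (Function.update (v (Sum.inl i)) s 0) y * w y -
        f0 y * (a (Sum.inl i) s * w y)) / w y ^ 2) y :=
    (hasDerivAt_fn _ _ _ y).div (hasDerivAt_mon _ _ s y) hms
  have halt := (hq0'.add (hf'.add (HasDerivAt.fun_sum (u := Finset.univ.erase i)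
    fun l _ => hq' l))).neg
  have heq : (fun z => -(R1 c0 be al c a i s v z) / G1 al c a i s v z) =ᶠ[nhds y]
      -(q0 + ((fun z => f0 z / w z) + fun z => ∑ l ∈ Finset.univ.erase i, qq l z)) := by
    have hev : ∀ᶠ z in nhds y, PR (al i) c a v z ≠ 0 :=
      (hasDerivAt_PR (al i) c a v y).continuousAt.eventually_ne hU.1
    filter_upwards [hev] with z hz
    have hwz : w z ≠ 0 :=
      Pool.Agent.T9h20.TA.mon_ne (c_ne_of_dom (hc (Sum.inl i)) hK.2) z
    have h1 : R1 c0 be al c a i s v z = c0 * PR be c a v z + (f0 z * PR (al i) c a v z +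
        ∑ l ∈ Finset.univ.erase i, fn (c (Sum.inl l)) (a (Sum.inl l)) (v (Sum.inl l)) z *
          PR (al l) c a v z) := by
      unfold R1 FF
      rw [← Finset.add_sum_erase _ _ (Finset.mem_univ i), PR_upd, PR_upd, upd_same]
      congr 1
      congr 1
      refine Finset.sum_congr rfl fun l hl => ?_
      have hne : (Sum.inl l : Fin k ⊕ Fin q) ≠ Sum.inl i := by
        intro h
        exact Finset.ne_of_mem_erase hl (Sum.inl.inj h)
      rw [upd_ne hne, PR_upd]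
    have h2 : G1 al c a i s v z = w z * PR (al i) c a v z := rfl
    rw [h1, h2]
    simp only [Pi.neg_apply, Pi.add_apply, hq, hq0]
    rw [neg_div, add_div, add_div, mul_div_mul_right _ _ hz, Finset.sum_div, one_mul,
      mul_div_assoc]
  have hun := hD.unique (halt.congr_of_eventuallyEq heq)
  rw [hun, enorm_neg]
  have hta : a (Sum.inl i) s * w y / w y = ta (c (Sum.inl i)) (a (Sum.inl i)) y := by
    rw [mul_div_assoc, div_self hms, mul_one]
    unfold ta
    rw [hs]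
  have hdiv : ∀ b, dfn (c b) (a b) (v b) y / fn (c b) (a b) (v b) y =
      ta (c b) (a b) y + eta c a v y b / rho c a v y b := fun b => dfn_div (hc b) (hn b)
  have hwy : |w y| = mx (c (Sum.inl i)) (a (Sum.inl i)) y := by
    unfold mx
    rw [hs]
  have hmi : |mx (c (Sum.inl i)) (a (Sum.inl i)) y| = mx (c (Sum.inl i)) (a (Sum.inl i)) y :=
    abs_of_pos (mx_pos (hc (Sum.inl i)) y)
  refine (enorm_add_le _ _).trans ?_
  refine add_le_add ?_ ((enorm_add_le _ _).trans (add_le_add ?_ ?_))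
  · -- the deterministic product
    have hbr : 0 / 1 + dPR be c a v y / PR be c a v y -
        (a (Sum.inl i) s * w y) / w y - dPR (al i) c a v y / PR (al i) c a v y =
        lam0 be al c a i y +
          ∑ b ∈ SS be (al i), (pp be (al i) b : ℝ) * (eta c a v y b / rho c a v y b) := by
      have e1 := sum_SS be (al i) fun b => ta (c b) (a b) y
      have e2 := sum_SS be (al i) fun b => eta c a v y b / rho c a v y b
      rw [dPR_div be hn, dPR_div (al i) hn, hta]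
      simp only [hdiv]
      unfold lam0
      rw [e1, e2]
      simp only [mul_add, Finset.sum_add_distrib]
      ring
    rw [hbr]
    unfold I0
    have hqy : |c0 * (1 * PR be c a v y / (w y * PR (al i) c a v y))| =
        |K * Z0 c0 K be al c a v i y| := by
      rw [Z0_eq c0 K be al hc hn, one_mul, abs_mul, abs_div, abs_mul (w y), hwy, abs_mul K,
        abs_div, abs_mul |c0|, abs_abs, abs_mul K, abs_of_pos hK0, abs_mul, hmi]
      have hm0 := (mx_pos (a := a (Sum.inl i)) (hc (Sum.inl i)) y).ne'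
      have hp0 : |PR (al i) c a v y| ≠ 0 := abs_ne_zero.mpr (hP _)
      field_simp
    rw [← mul_assoc, enorm_mul, enorm_mul (Z0 c0 K be al c a v i y), ← mul_assoc]
    gcongr
    rw [← Real.enorm_abs, hqy, Real.enorm_abs, enorm_mul, Real.enorm_of_nonneg hK0.le]
  · exact (deriv_own (hc (Sum.inl i)) (v (Sum.inl i)) y s hs).le
  · refine (enorm_sum_le _ _).trans (Finset.sum_le_sum fun l _ => ?_)
    -- compare with `II`
    have hbr : dfn (c (Sum.inl l)) (a (Sum.inl l)) (v (Sum.inl l)) y /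
          fn (c (Sum.inl l)) (a (Sum.inl l)) (v (Sum.inl l)) y +
        dPR (al l) c a v y / PR (al l) c a v y -
        (a (Sum.inl i) s * w y) / w y - dPR (al i) c a v y / PR (al i) c a v y =
        lam al c a l i y + eta c a v y (Sum.inl l) / rho c a v y (Sum.inl l) +
          ∑ b ∈ SS (al l) (al i), (pp (al l) (al i) b : ℝ) *
            (eta c a v y b / rho c a v y b) := by
      have e1 := sum_SS (al l) (al i) fun b => ta (c b) (a b) y
      have e2 := sum_SS (al l) (al i) fun b => eta c a v y b / rho c a v y b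
      rw [dPR_div (al l) hn, dPR_div (al i) hn, hta]
      simp only [hdiv]
      unfold lam
      rw [e1, e2]
      simp only [mul_add, Finset.sum_add_distrib]
      ring
    rw [hbr]
    unfold II
    have hqy : |qq l y| = |ZZ al c a v l i y * rho c a v y (Sum.inl l)| := by
      have e1 : |qq l y| = |mx (c (Sum.inl l)) (a (Sum.inl l)) y * rho c a v y (Sum.inl l)| *
          |PR (al l) c a v y| /
          (mx (c (Sum.inl i)) (a (Sum.inl i)) y * |PR (al i) c a v y|) := by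
        have : qq l y = fn (c (Sum.inl l)) (a (Sum.inl l)) (v (Sum.inl l)) y *
          PR (al l) c a v y / (w y * PR (al i) c a v y) := rfl
        rw [this, fn_rho hc, abs_div, abs_mul (w y), hwy, abs_mul]
      have e2 : |ZZ al c a v l i y * rho c a v y (Sum.inl l)| =
          |mx (c (Sum.inl l)) (a (Sum.inl l)) y| * |PR (al l) c a v y| /
          (mx (c (Sum.inl i)) (a (Sum.inl i)) y * |PR (al i) c a v y|) *
            |rho c a v y (Sum.inl l)| := by
        rw [ZZ_eq al hc hn, abs_mul, abs_div, abs_mul,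
          abs_mul (mx (c (Sum.inl i)) (a (Sum.inl i)) y), hmi]
      rw [e1, e2, abs_mul]
      ring
    rw [enorm_mul, enorm_mul]
    gcongr
    rw [← Real.enorm_abs, hqy, Real.enorm_abs]

theorem fixed (hH : SFixP) {n : ℕ} {al : Fin k → Fin q → ℕ} (hal : ∀ i, ∑ j, al i j ≤ n)
    {c a : Fin k ⊕ Fin q → Fin t → ℝ} (hc : ∀ b, ∃ s, c b s ≠ 0)
    (μ : Fin k ⊕ Fin q → Fin t → Measure ℝ)
    [∀ b s, IsProbabilityMeasure (μ b s)] (A B : ℝ≥0)
    (hB : ∀ b s, μ b s ≤ (B : ℝ≥0∞) • (volume : Measure ℝ))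
    (hA : ∀ b s, ∫⁻ x, ‖x‖ₑ ∂(μ b s) ≤ A) (y : ℝ) (l i : Fin k) :
    ∫⁻ v, {v | |ZZ al c a v l i y| ≤ 1}.indicator (fun v => ‖II al c a v l i y‖ₑ) v ∂(PP μ) ≤
      bd n al c a A B l i y := by
  have h := hH (Fin k ⊕ Fin q) t μ A B hB hA (fun b s => gg (c b) (a b) s y)
    (fun b s => hh (c b) (a b) s y) (fun b => sel (c b) (a b) y)
    (fun b => abs_gg_sel (hc b) y) (fun b => hh_sel (c b) (a b) y)
    (fun b s => abs_gg_le (hc b) s y) (Sum.inl l) (SS (al l) (al i)) (pp (al l) (al i))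
    (inl_notMem _ _ l)
    (zz al c a l i y) (lam al c a l i y) (th n)
    (zz_pos al hc l i y) (th_pos n).le (th_le n)
    (th_mul_le' (pos_part_le (hal l))) (th_mul_le' (neg_part_le (hal i)))
  exact h

theorem fixed0 (hQ : SFixQ) {n : ℕ} {be : Fin q → ℕ} (hbe : ∑ j, be j ≤ n + 1)
    {al : Fin k → Fin q → ℕ} (hal : ∀ i, ∑ j, al i j ≤ n) {c0 K : ℝ} (hc0 : c0 ≠ 0)
    (hK0 : 0 < K) {c a : Fin k ⊕ Fin q → Fin t → ℝ} (hc : ∀ b, ∃ s, c b s ≠ 0)
    (μ : Fin k ⊕ Fin q → Fin t → Measure ℝ)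
    [∀ b s, IsProbabilityMeasure (μ b s)] (A B : ℝ≥0)
    (hB : ∀ b s, μ b s ≤ (B : ℝ≥0∞) • (volume : Measure ℝ))
    (hA : ∀ b s, ∫⁻ x, ‖x‖ₑ ∂(μ b s) ≤ A) (y : ℝ) (i : Fin k) :
    ∫⁻ v, {v | |Z0 c0 K be al c a v i y| ≤ 1}.indicator
        (fun v => ‖I0 c0 K be al c a v i y‖ₑ) v ∂(PP μ) ≤
      bd0 n c0 K be al c a A B i y := by
  have h := hQ (Fin k ⊕ Fin q) t μ A B hB hA (fun b s => gg (c b) (a b) s y)
    (fun b s => hh (c b) (a b) s y) (fun b => sel (c b) (a b) y)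
    (fun b => abs_gg_sel (hc b) y) (fun b => hh_sel (c b) (a b) y)
    (fun b s => abs_gg_le (hc b) s y) (SS be (al i)) (pp be (al i))
    (z0 c0 K be al c a i y) (lam0 be al c a i y) (th n)
    (z0_pos hc0 hK0 be al hc i y) (th_pos n).le (th_le n)
    (th_mul_le1 (pos_part_le hbe)) (th_mul_le' (neg_part_le (hal i)))
  exact h

/-- The expectation for fixed `y`, pivot `i`. -/
theorem fix1 (hH : SFixP) (hQ : SFixQ) (hL : SLogD) (hM : SMom) {n : ℕ} {be : Fin q → ℕ}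
    (hbe : ∑ j, be j ≤ n + 1) {al : Fin k → Fin q → ℕ}
    (hal : ∀ i, ∑ j, al i j ≤ n) (c0 : ℝ) {K : ℝ} (hK0 : 0 < K)
    {c a : Fin k ⊕ Fin q → Fin t → ℝ} (hc : ∀ b, ∃ s, c b s ≠ 0)
    (μ : Fin k ⊕ Fin q → Fin t → Measure ℝ)
    [∀ b s, IsProbabilityMeasure (μ b s)] (A B : ℝ≥0)
    (hB : ∀ b s, μ b s ≤ (B : ℝ≥0∞) • (volume : Measure ℝ))
    (hA : ∀ b s, ∫⁻ x, ‖x‖ₑ ∂(μ b s) ≤ A) (y : ℝ) (i : Fin k) :
    ∑ s, ∫⁻ v, (KK c0 K be al c a i s ∩ UU al c a i s).indicator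
        (fun p => ‖D1 c0 be al c a i s p.1 p.2‖ₑ) (v, y) ∂(PP μ) ≤
      (if c0 = 0 then 0 else ENNReal.ofReal K * bd0 n c0 K be al c a A B i y) +
      (A * kap (c (Sum.inl i)) (a (Sum.inl i)) y +
        ∑ l ∈ Finset.univ.erase i, bd n al c a A B l i y) := by
  classical
  set s0 := sel (c (Sum.inl i)) (a (Sum.inl i)) y with hs0
  have h1 : ∑ s, ∫⁻ v, (KK c0 K be al c a i s ∩ UU al c a i s).indicator
        (fun p => ‖D1 c0 be al c a i s p.1 p.2‖ₑ) (v, y) ∂(PP μ) =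
        ∫⁻ v, (KK c0 K be al c a i s0 ∩ UU al c a i s0).indicator
          (fun p => ‖D1 c0 be al c a i s0 p.1 p.2‖ₑ) (v, y) ∂(PP μ) := by
    refine Finset.sum_eq_single s0 (fun s _ hs => ?_) (fun h => absurd (Finset.mem_univ _) h)
    have : ∀ v : Fin k ⊕ Fin q → Fin t → ℝ, (KK c0 K be al c a i s ∩ UU al c a i s).indicator
        (fun p => ‖D1 c0 be al c a i s p.1 p.2‖ₑ) (v, y) = 0 := by
      intro v
      refine Set.indicator_of_notMem (fun hmem => hs ?_) _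
      exact (sel_of_mem hmem.1 hmem.2).symm
    simp only [this, lintegral_zero]
  rw [h1]
  have mI : Measurable fun v => {v | |Z0 c0 K be al c a v i y| ≤ 1}.indicator
      (fun v => ‖I0 c0 K be al c a v i y‖ₑ) v := by
    refine Measurable.indicator (measurable_I0 c0 K be al c a i y).enorm ?_
    exact measurableSet_le (measurable_Z0 c0 K be al c a i y).norm measurable_const
  calc ∫⁻ v, (KK c0 K be al c a i s0 ∩ UU al c a i s0).indicator
          (fun p => ‖D1 c0 be al c a i s0 p.1 p.2‖ₑ) (v, y) ∂(PP μ)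
      ≤ ∫⁻ v, (ENNReal.ofReal K * {v | |Z0 c0 K be al c a v i y| ≤ 1}.indicator
            (fun v => ‖I0 c0 K be al c a v i y‖ₑ) v +
          (‖eta c a v y (Sum.inl i)‖ₑ + ∑ l ∈ Finset.univ.erase i,
          {v | |ZZ al c a v l i y| ≤ 1}.indicator (fun v => ‖II al c a v l i y‖ₑ) v))
            ∂(PP μ) := by
        refine lintegral_mono_ae ?_
        filter_upwards [ae_ne hM hc μ A B hB hA y (a := a)] with v hv
        by_cases hmem : (v, y) ∈ KK c0 K be al c a i s0 ∩ UU al c a i s0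
        · rw [Set.indicator_of_mem hmem]
          refine (D1_le hL hK0 hc hmem.1 hmem.2 hv).trans ?_
          refine add_le_add ?_ (add_le_add le_rfl (Finset.sum_le_sum fun l _ => ?_))
          · rw [Set.indicator_of_mem]
            exact abs_Z0_le hK0 al hc hmem.1 hv
          · rw [Set.indicator_of_mem]
            exact abs_ZZ_le al hc hmem.1 hv l
        · rw [Set.indicator_of_notMem hmem]
          exact zero_le
    _ = ENNReal.ofReal K * ∫⁻ v, {v | |Z0 c0 K be al c a v i y| ≤ 1}.indicator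
            (fun v => ‖I0 c0 K be al c a v i y‖ₑ) v ∂(PP μ) +
          (∫⁻ v, ‖eta c a v y (Sum.inl i)‖ₑ ∂(PP μ) + ∑ l ∈ Finset.univ.erase i,
          ∫⁻ v, {v | |ZZ al c a v l i y| ≤ 1}.indicator
            (fun v => ‖II al c a v l i y‖ₑ) v ∂(PP μ)) := by
        rw [lintegral_add_left (mI.const_mul _), lintegral_const_mul _ mI,
          lintegral_add_left (measurable_eta c a y _).enorm, lintegral_finsetSum]
        intro l _
        refine Measurable.indicator (measurable_II al c a l i y).enorm ?_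
        exact measurableSet_le (measurable_ZZ al c a l i y).norm measurable_const
    _ ≤ (if c0 = 0 then 0 else ENNReal.ofReal K * bd0 n c0 K be al c a A B i y) +
          (A * kap (c (Sum.inl i)) (a (Sum.inl i)) y +
          ∑ l ∈ Finset.univ.erase i, bd n al c a A B l i y) := by
        refine add_le_add ?_
          (add_le_add (lintegral_eta μ A hA _ y) (Finset.sum_le_sum fun l _ => ?_))
        · split_ifs with hc0
          · subst hc0
            simp only [I0_zero, enorm_zero, Set.indicator_zero, lintegral_zero, mul_zero]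
            exact le_rfl
          · gcongr
            exact fixed0 hQ hbe hal hc0 hK0 hc μ A B hB hA y i
        · exact fixed hH hal hc μ A B hB hA y l i

theorem drift (hG : SDrift) {n : ℕ} {al : Fin k → Fin q → ℕ} (hal : ∀ i, ∑ j, al i j ≤ n)
    {c a : Fin k ⊕ Fin q → Fin t → ℝ} (hc : ∀ b, ∃ s, c b s ≠ 0)
    (l i : Fin k) (hli : l ≠ i) :
    ∫⁻ y, ENNReal.ofReal (|lam al c a l i y| *
      Real.exp (-(th n * |Real.log (zz al c a l i y)|))) ≤
      ENNReal.ofReal ((2 * ((n : ℝ) + 1) * (t : ℝ) ^ 2 + 1) * (4 * ((n : ℝ) + 1))) := by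
  have h := drift_set hG hc (a := a)
    (insert (Sum.inl l) (insert (Sum.inl i) (SS (al l) (al i)))) (ww (al l) (al i) l i)
    (th n) (th_pos n)
  have e1 : ∀ y, ∑ b ∈ insert (Sum.inl l) (insert (Sum.inl i) (SS (al l) (al i))),
      ww (al l) (al i) l i b * ta (c b) (a b) y = lam al c a l i y := fun y =>
    sum_ww (al l) (al i) hli fun b => ta (c b) (a b) y
  have e2 : ∀ y, ∑ b ∈ insert (Sum.inl l) (insert (Sum.inl i) (SS (al l) (al i))),
      ww (al l) (al i) l i b * Real.log (mx (c b) (a b) y) =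
        Real.log (zz al c a l i y) := by
    intro y
    rw [sum_ww (al l) (al i) hli fun b => Real.log (mx (c b) (a b) y)]
    unfold zz
    have hp : ∀ b, mx (c b) (a b) y ≠ 0 := fun b => (mx_pos (hc b) y).ne'
    rw [Real.log_mul (div_ne_zero (hp _) (hp _))
      (Finset.prod_ne_zero_iff.mpr fun b _ => zpow_ne_zero _ (hp b)),
      Real.log_div (hp _) (hp _), Real.log_prod (fun b _ => zpow_ne_zero _ (hp b))]
    simp only [Real.log_zpow]
  simp only [e1, e2] at h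
  refine h.trans (ENNReal.ofReal_le_ofReal ?_)
  rw [two_div_th]
  have h3 : ((insert (Sum.inl l) (insert (Sum.inl i) (SS (al l) (al i))) :
      Finset (Fin k ⊕ Fin q)).card : ℝ) ≤ 2 * ((n : ℝ) + 1) := by
    have h4 : (insert (Sum.inl l) (insert (Sum.inl i) (SS (al l) (al i))) :
      Finset (Fin k ⊕ Fin q)).card ≤ 2 * (n + 1) := by
      refine (Finset.card_insert_le _ _).trans ?_
      have h5 := Finset.card_insert_le (Sum.inl i : Fin k ⊕ Fin q) (SS (al l) (al i))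
      have h6 := card_SS_le (k := k) (hal l) (hal i)
      omega
    exact_mod_cast h4
  gcongr

theorem drift0 (hG : SDrift) {n : ℕ} {be : Fin q → ℕ} (hbe : ∑ j, be j ≤ n + 1)
    {al : Fin k → Fin q → ℕ} (hal : ∀ i, ∑ j, al i j ≤ n) {c0 K : ℝ} (hc0 : c0 ≠ 0)
    (hK0 : 0 < K)
    {c a : Fin k ⊕ Fin q → Fin t → ℝ} (hc : ∀ b, ∃ s, c b s ≠ 0) (i : Fin k) :
    ∫⁻ y, ENNReal.ofReal (|lam0 be al c a i y| *
      Real.exp (-(th n * |Real.log (z0 c0 K be al c a i y)|))) ≤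
      ENNReal.ofReal ((2 * ((n : ℝ) + 1) * (t : ℝ) ^ 2 + 1) * (4 * ((n : ℝ) + 1))) := by
  have h := drift_const hG hc (a := a)
    (insert (Sum.inl i) (SS be (al i))) (w0 be (al i)) (Sum.inl i)
    (Finset.mem_insert_self _ _) rfl (Real.log (|c0| / K)) (th n) (th_pos n)
  have e1 : ∀ y, ∑ b ∈ insert (Sum.inl i) (SS be (al i)),
      w0 be (al i) b * ta (c b) (a b) y = lam0 be al c a i y := fun y =>
    sum_w0 be (al i) i fun b => ta (c b) (a b) y
  have e2 : ∀ y, Real.log (|c0| / K) + ∑ b ∈ insert (Sum.inl i) (SS be (al i)),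
      w0 be (al i) b * Real.log (mx (c b) (a b) y) =
        Real.log (z0 c0 K be al c a i y) := by
    intro y
    rw [sum_w0 be (al i) i fun b => Real.log (mx (c b) (a b) y)]
    unfold z0
    have hp : ∀ b, mx (c b) (a b) y ≠ 0 := fun b => (mx_pos (hc b) y).ne'
    have hcK : |c0| / K ≠ 0 := (div_pos (abs_pos.mpr hc0) hK0).ne'
    rw [Real.log_mul (div_ne_zero hcK (hp _))
      (Finset.prod_ne_zero_iff.mpr fun b _ => zpow_ne_zero _ (hp b)),
      Real.log_div hcK (hp _), Real.log_prod (fun b _ => zpow_ne_zero _ (hp b))]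
    simp only [Real.log_zpow]
    ring
  simp only [e1, e2] at h
  refine h.trans (ENNReal.ofReal_le_ofReal ?_)
  rw [two_div_th]
  have h3 : ((insert (Sum.inl i) (SS be (al i)) :
      Finset (Fin k ⊕ Fin q)).card : ℝ) ≤ 2 * ((n : ℝ) + 1) := by
    have h4 : (insert (Sum.inl i) (SS be (al i)) :
      Finset (Fin k ⊕ Fin q)).card ≤ 2 * (n + 1) := by
      refine (Finset.card_insert_le _ _).trans ?_
      have h6 := card_SS_le (k := k) hbe (hal i)
      omega
    exact_mod_cast h4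
  gcongr

theorem lintegral_sum_kap (hF : SKap) {n1 n2 : ℕ} {x z : Fin q → ℕ} (hx : ∑ j, x j ≤ n1)
    (hz : ∑ j, z j ≤ n2) {c a : Fin k ⊕ Fin q → Fin t → ℝ}
    (hc : ∀ b, ∃ s, c b s ≠ 0) :
    ∫⁻ y, ∑ b ∈ SS x z, kap (c b) (a b) y ≤
      (n1 : ℝ≥0∞) * (t : ℝ≥0∞) ^ 2 + (n2 : ℝ≥0∞) * (t : ℝ≥0∞) ^ 2 := by
  rw [lintegral_finsetSum _ fun b _ => measurable_kap (c b) (a b)]
  refine (Finset.sum_le_sum fun b _ => kapZ hF (hc b)).trans ?_
  rw [Finset.sum_const, nsmul_eq_mul, ← add_mul]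
  gcongr
  exact_mod_cast card_SS_le (k := k) hx hz

theorem lintegral_bd (hF : SKap) (hG : SDrift) {n : ℕ} {al : Fin k → Fin q → ℕ}
    (hal : ∀ i, ∑ j, al i j ≤ n) {c a : Fin k ⊕ Fin q → Fin t → ℝ}
    (hc : ∀ b, ∃ s, c b s ≠ 0) (A B : ℝ≥0) (l i : Fin k) (hli : l ≠ i) :
    ∫⁻ y, bd n al c a A B l i y ≤ bd2 n t A B := by
  unfold bd bd2
  rw [split_lin _ _ _ (measurable_kap _ _) (measurable_drift n al c a l i)
    (measurable_sum_kap _ _ c a)]
  gcongr
  · exact kapZ hF (hc _)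
  · exact drift hG hal hc l i hli
  · exact lintegral_sum_kap hF (hal l) (hal i) hc

theorem lintegral_bd0 (hF : SKap) (hG : SDrift) {n : ℕ} {be : Fin q → ℕ}
    (hbe : ∑ j, be j ≤ n + 1) {al : Fin k → Fin q → ℕ}
    (hal : ∀ i, ∑ j, al i j ≤ n) {c0 K : ℝ} (hc0 : c0 ≠ 0) (hK0 : 0 < K)
    {c a : Fin k ⊕ Fin q → Fin t → ℝ}
    (hc : ∀ b, ∃ s, c b s ≠ 0) (A B : ℝ≥0) (i : Fin k) :
    ∫⁻ y, bd0 n c0 K be al c a A B i y ≤ bd3 n t A B := by
  unfold bd0 bd3
  rw [lintegral_add_left ((measurable_drift0 n c0 K be al c a i).mul_const _),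
    lintegral_mul_const _ (measurable_drift0 n c0 K be al c a i),
    lintegral_const_mul _ (measurable_sum_kap _ _ c a)]
  gcongr
  · exact drift0 hG hbe hal hc0 hK0 hc i
  · exact lintegral_sum_kap hF hbe (hal i) hc

theorem piv (hR : SRice) (hH : SFixP) (hQ : SFixQ) (hL : SLogD) (hM : SMom) (hF : SKap)
    (hG : SDrift) {n : ℕ} {be : Fin q → ℕ} (hbe : ∑ j, be j ≤ n + 1)
    {al : Fin k → Fin q → ℕ} (hal : ∀ i, ∑ j, al i j ≤ n) (c0 : ℝ) {K : ℝ} (hK0 : 0 < K)
    {c a : Fin k ⊕ Fin q → Fin t → ℝ} (hc : ∀ b, ∃ s, c b s ≠ 0)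
    (μ : Fin k ⊕ Fin q → Fin t → Measure ℝ)
    [∀ b s, IsProbabilityMeasure (μ b s)] (A B : ℝ≥0)
    (hB : ∀ b s, μ b s ≤ (B : ℝ≥0∞) • (volume : Measure ℝ))
    (hA : ∀ b s, ∫⁻ x, ‖x‖ₑ ∂(μ b s) ≤ A) (i : Fin k) :
    ∑ s, ∫⁻ v, (({y : ℝ | (v, y) ∈ KK c0 K be al c a i s ∧ (v, y) ∈ UU al c a i s ∧
        FF c0 be al c a v y = 0}.encard : ℕ∞) : ℝ≥0∞) ∂(PP μ) ≤
      B * ((if c0 = 0 then 0 else ENNReal.ofReal K * bd3 n t A B) +
        (A * (t : ℝ≥0∞) ^ 2 + (k - 1 : ℕ) * bd2 n t A B)) := by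
  classical
  have mif : Measurable fun y => (if c0 = 0 then (0 : ℝ≥0∞) else
      ENNReal.ofReal K * bd0 n c0 K be al c a A B i y) := by
    by_cases hc0 : c0 = 0
    · simp only [hc0, if_true]
      exact measurable_const
    · simp only [if_neg hc0]
      exact (measurable_bd0 n c0 K be al c a A B i).const_mul _
  calc ∑ s, ∫⁻ v, (({y : ℝ | (v, y) ∈ KK c0 K be al c a i s ∧ (v, y) ∈ UU al c a i s ∧
        FF c0 be al c a v y = 0}.encard : ℕ∞) : ℝ≥0∞) ∂(PP μ)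
      ≤ ∑ s, B * ∫⁻ y, ∫⁻ v, (KK c0 K be al c a i s ∩ UU al c a i s).indicator
          (fun p => ‖D1 c0 be al c a i s p.1 p.2‖ₑ) (v, y) ∂(PP μ) :=
        Finset.sum_le_sum fun s _ => rice1 hR c0 K be al c a hc μ B hB i s
    _ = B * ∑ s, ∫⁻ y, ∫⁻ v, (KK c0 K be al c a i s ∩ UU al c a i s).indicator
          (fun p => ‖D1 c0 be al c a i s p.1 p.2‖ₑ) (v, y) ∂(PP μ) := by rw [Finset.mul_sum]
    _ ≤ B * ∫⁻ y, ∑ s, ∫⁻ v, (KK c0 K be al c a i s ∩ UU al c a i s).indicator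
          (fun p => ‖D1 c0 be al c a i s p.1 p.2‖ₑ) (v, y) ∂(PP μ) := by
        gcongr
        exact sum_lintegral_le _ _
    _ ≤ B * ∫⁻ y, ((if c0 = 0 then 0 else ENNReal.ofReal K *
            bd0 n c0 K be al c a A B i y) + (A * kap (c (Sum.inl i)) (a (Sum.inl i)) y +
          ∑ l ∈ Finset.univ.erase i, bd n al c a A B l i y)) := by
        gcongr with y
        exact fix1 hH hQ hL hM hbe hal c0 hK0 hc μ A B hB hA y i
    _ ≤ B * ((if c0 = 0 then 0 else ENNReal.ofReal K * bd3 n t A B) +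
          (A * (t : ℝ≥0∞) ^ 2 + (k - 1 : ℕ) * bd2 n t A B)) := by
        gcongr
        rw [lintegral_add_left mif, lintegral_add_left ((measurable_kap _ _).const_mul _),
          lintegral_const_mul _ (measurable_kap _ _),
          lintegral_finsetSum _ fun l _ => measurable_bd n al c a A B l i]
        refine add_le_add ?_ (add_le_add ?_ ?_)
        · by_cases hc0 : c0 = 0
          · simp [hc0]
          · simp only [if_neg hc0]
            rw [lintegral_const_mul _ (measurable_bd0 n c0 K be al c a A B i)]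
            gcongr
            exact lintegral_bd0 hF hG hbe hal hc0 hK0 hc A B i
        · gcongr
          exact kapZ hF (hc _)
        · refine (Finset.sum_le_sum fun l hl => lintegral_bd hF hG hal hc A B l i
            (Finset.ne_of_mem_erase hl)).trans ?_
          rw [Finset.sum_const, Finset.card_erase_of_mem (Finset.mem_univ i),
            Finset.card_univ, Fintype.card_fin, nsmul_eq_mul]

theorem cover [NeZero k] {c0 K : ℝ} {be : Fin q → ℕ} {al : Fin k → Fin q → ℕ}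
    {c a : Fin k ⊕ Fin q → Fin t → ℝ}
    (hc : ∀ b, ∃ s, c b s ≠ 0) {v : Fin k ⊕ Fin q → Fin t → ℝ} (hv : Good c0 K be al c a v) :
    {y : ℝ | FF c0 be al c a v y = 0} ⊆
      (⋃ i : Fin k, ⋃ s : Fin t, {y : ℝ | (v, y) ∈ KK c0 K be al c a i s ∧
        (v, y) ∈ UU al c a i s ∧ FF c0 be al c a v y = 0}) ∪
      ⋃ j : J0 al, ⋃ s : Fin t, {y : ℝ | (v, y) ∈ K0 c a (Sum.inr j) s ∧
        (v, y) ∈ U0 c a (Sum.inr j) s ∧
        fn (c (Sum.inr j)) (a (Sum.inr j)) (v (Sum.inr j)) y = 0} := by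
  classical
  intro y hy
  obtain ⟨i, -, hi⟩ := Finset.exists_max_image (Finset.univ : Finset (Fin k))
    (fun l => |mx (c (Sum.inl l)) (a (Sum.inl l)) y * PR (al l) c a v y|)
    ⟨0, Finset.mem_univ 0⟩
  by_cases h0 : PR (al i) c a v y = 0
  · right
    have h1 : PR (al 0) c a v y = 0 := by
      have h2 := hi 0 (Finset.mem_univ 0)
      simp only [h0, mul_zero, abs_zero] at h2
      have h3 := abs_nonpos_iff.mp h2
      exact (mul_eq_zero.mp h3).resolve_left (mx_pos (hc _) y).ne'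
    unfold PR at h1
    obtain ⟨j, -, hj⟩ := Finset.prod_eq_zero_iff.mp h1
    have hj0 : al 0 j ≠ 0 := by
      intro h4
      rw [h4, pow_zero] at hj
      exact one_ne_zero hj
    have hj1 := (pow_eq_zero_iff hj0).mp hj
    have hjm : j ∈ J0 al := Finset.mem_filter.mpr ⟨Finset.mem_univ j, hj0⟩
    refine Set.mem_iUnion.mpr ⟨⟨j, hjm⟩, Set.mem_iUnion.mpr
      ⟨sel (c (Sum.inr j)) (a (Sum.inr j)) y, ?_, ?_, hj1⟩⟩
    · exact (isSel_sel (c (Sum.inr j)) (a (Sum.inr j)) y).1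
    · exact (isSel_sel (c (Sum.inr j)) (a (Sum.inr j)) y).2
  · left
    refine Set.mem_iUnion.mpr ⟨i, Set.mem_iUnion.mpr
      ⟨sel (c (Sum.inl i)) (a (Sum.inl i)) y,
        ⟨⟨fun l => hi l (Finset.mem_univ l), hv y i hy fun l => hi l (Finset.mem_univ l)⟩, ?_⟩,
        ⟨h0, ?_⟩, hy⟩⟩
    · exact (isSel_sel (c (Sum.inl i)) (a (Sum.inl i)) y).1
    · exact (isSel_sel (c (Sum.inl i)) (a (Sum.inl i)) y).2

theorem count_le [NeZero k] {c0 K : ℝ} {be : Fin q → ℕ} {al : Fin k → Fin q → ℕ}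
    {c a : Fin k ⊕ Fin q → Fin t → ℝ}
    (hc : ∀ b, ∃ s, c b s ≠ 0) {v : Fin k ⊕ Fin q → Fin t → ℝ} (hv : Good c0 K be al c a v) :
    (({y : ℝ | FF c0 be al c a v y = 0}.encard : ℕ∞) : ℝ≥0∞) ≤
      ∑ i, ∑ s, (({y : ℝ | (v, y) ∈ KK c0 K be al c a i s ∧ (v, y) ∈ UU al c a i s ∧
        FF c0 be al c a v y = 0}.encard : ℕ∞) : ℝ≥0∞) +
      ∑ j : J0 al, ∑ s, (({y : ℝ | (v, y) ∈ K0 c a (Sum.inr j) s ∧
        (v, y) ∈ U0 c a (Sum.inr j) s ∧
        fn (c (Sum.inr j)) (a (Sum.inr j)) (v (Sum.inr j)) y = 0}.encard : ℕ∞) : ℝ≥0∞) := by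
  refine (ENat.toENNReal_mono ((Set.encard_le_encard (cover hc hv)).trans
    (Set.encard_union_le _ _))).trans ?_
  rw [ENat.toENNReal_add]
  refine add_le_add ?_ ?_
  · refine (encard_iUnion_le' _).trans (Finset.sum_le_sum fun i _ => ?_)
    exact encard_iUnion_le' _
  · refine (encard_iUnion_le' _).trans (Finset.sum_le_sum fun j _ => ?_)
    exact encard_iUnion_le' _

/-- The bound for exponential sums, raw form. -/
theorem main_raw (hMe : SMeas) (hR : SRice) (hH : SFixP) (hQ : SFixQ) (hL : SLogD)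
    (hM : SMom) (hF : SKap) (hG : SDrift) [NeZero k] {n : ℕ} {be : Fin q → ℕ}
    (hbe : ∑ j, be j ≤ n + 1) {al : Fin k → Fin q → ℕ} (hal : ∀ i, ∑ j, al i j ≤ n) (c0 : ℝ)
    {K : ℝ} (hK0 : 0 < K) {c a : Fin k ⊕ Fin q → Fin t → ℝ} (hc : ∀ b, ∃ s, c b s ≠ 0)
    (μ : Fin k ⊕ Fin q → Fin t → Measure ℝ)
    [∀ b s, IsProbabilityMeasure (μ b s)] (A B : ℝ≥0)
    (hB : ∀ b s, μ b s ≤ (B : ℝ≥0∞) • (volume : Measure ℝ))
    (hA : ∀ b s, ∫⁻ x, ‖x‖ₑ ∂(μ b s) ≤ A)
    (hgood : ∀ᵐ v ∂(PP μ), Good c0 K be al c a v) :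
    ∫⁻ v, (({y : ℝ | FF c0 be al c a v y = 0}.encard : ℕ∞) : ℝ≥0∞) ∂(PP μ) ≤
      k * (B * ((if c0 = 0 then 0 else ENNReal.ofReal K * bd3 n t A B) +
        (A * (t : ℝ≥0∞) ^ 2 + (k - 1 : ℕ) * bd2 n t A B))) +
        n * (B * (A * (t : ℝ≥0∞) ^ 2)) := by
  refine (lintegral_mono_ae (hgood.mono fun v hv => count_le hc hv)).trans ?_
  rw [lintegral_add_left, lintegral_finsetSum, lintegral_finsetSum]
  · refine add_le_add ?_ ?_
    · calc ∑ i, ∫⁻ v, ∑ s, (({y : ℝ | (v, y) ∈ KK c0 K be al c a i s ∧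
            (v, y) ∈ UU al c a i s ∧
            FF c0 be al c a v y = 0}.encard : ℕ∞) : ℝ≥0∞) ∂(PP μ)
          ≤ ∑ _i : Fin k, B * ((if c0 = 0 then 0 else ENNReal.ofReal K * bd3 n t A B) +
            (A * (t : ℝ≥0∞) ^ 2 + (k - 1 : ℕ) * bd2 n t A B)) := by
            refine Finset.sum_le_sum fun i _ => ?_
            rw [lintegral_finsetSum _ fun s _ => measurable_count1 hMe c0 K be al c a i s]
            exact piv hR hH hQ hL hM hF hG hbe hal c0 hK0 hc μ A B hB hA i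
        _ = _ := by
            rw [Finset.sum_const, Finset.card_univ, Fintype.card_fin, nsmul_eq_mul]
    · calc ∑ j : J0 al, ∫⁻ v, ∑ s, (({y : ℝ | (v, y) ∈ K0 c a (Sum.inr j) s ∧
            (v, y) ∈ U0 c a (Sum.inr j) s ∧
            fn (c (Sum.inr j)) (a (Sum.inr j)) (v (Sum.inr j)) y = 0}.encard : ℕ∞) : ℝ≥0∞)
            ∂(PP μ)
          ≤ ∑ _j : J0 al, B * (A * (t : ℝ≥0∞) ^ 2) := by
            refine Finset.sum_le_sum fun j _ => ?_
            rw [lintegral_finsetSum _ fun s _ => measurable_count0 hMe c a (Sum.inr j) s]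
            exact piv0 hR hF hc μ A B hB hA (Sum.inr j)
        _ = ((J0 al).card : ℝ≥0∞) * (B * (A * (t : ℝ≥0∞) ^ 2)) := by
            rw [Finset.sum_const, Finset.card_univ, Fintype.card_coe, nsmul_eq_mul]
        _ ≤ n * (B * (A * (t : ℝ≥0∞) ^ 2)) := by
            gcongr
            exact card_J0_le hal
  · intro j _
    exact Finset.measurable_fun_sum _ fun s _ => measurable_count0 hMe c a (Sum.inr j) s
  · intro i _
    exact Finset.measurable_fun_sum _ fun s _ => measurable_count1 hMe c0 K be al c a i s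
  · exact Finset.measurable_fun_sum _ fun i _ => Finset.measurable_fun_sum _ fun s _ =>
      measurable_count1 hMe c0 K be al c a i s

/-- Exponential sums with shared factors, general laws. -/
theorem law_gen [NeZero k] {n : ℕ} {al : Fin k → Fin q → ℕ}
    (hal : ∀ i, ∑ j, al i j ≤ n) {c a : Fin k ⊕ Fin q → Fin t → ℝ} (hc : ∀ b, ∃ s, c b s ≠ 0)
    (ν : Fin k ⊕ Fin q → Fin t → Measure ℝ)
    [∀ b s, IsProbabilityMeasure (ν b s)] (G : ℝ≥0)
    (hν : ∀ b s, ∃ B : ℝ≥0, ν b s ≤ (B : ℝ≥0∞) • (volume : Measure ℝ) ∧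
      (B : ℝ≥0∞) * ∫⁻ x, ‖x‖ₑ ∂(ν b s) ≤ G) :
    ∫⁻ v, (({y : ℝ | FF 0 0 al c a v y = 0}.encard : ℕ∞) : ℝ≥0∞) ∂(PP ν) ≤
      66 * (k : ℝ≥0∞) ^ 2 * ((n : ℝ≥0∞) + 1) ^ 2 * (t : ℝ≥0∞) ^ 3 * G * (1 + t * G) := by
  choose B hB hA using hν
  have hB0 : ∀ b s, (B b s : ℝ) ≠ 0 := fun b s => dens_pos (hB b s)
  have hprob : ∀ b s, IsProbabilityMeasure ((ν b s).map fun x => (B b s : ℝ) * x) := fun b s =>
    Measure.isProbabilityMeasure_map (measurable_const_mul _).aemeasurable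
  rw [scale_count 0 0 al c a ν (fun b s => (B b s : ℝ)) hB0]
  refine (main_raw Pool.Agent.T9h48.TA.sMeas sRice' sFixP' sFixQ' Pool.Agent.T9h95.TA.sLogD
    Pool.Agent.T9h67.TA.sMom Pool.Agent.T9h95.TA.sKap Pool.Agent.T9h53.TA.sDrift
    (n := n) (be := 0) (by simp) hal 0 one_pos (fun b => by
      obtain ⟨s, hs⟩ := hc b
      exact ⟨s, div_ne_zero hs (hB0 b s)⟩) _ G 1
    (fun b s => ?_) (fun b s => mom_scale (hA b s))
    (Filter.Eventually.of_forall fun v => good_zero zero_le_one 0 al _ a v)).trans ?_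
  · rw [ENNReal.coe_one, one_smul]
    exact dens_scale (hB b s)
  · rw [if_pos rfl, zero_add]
    exact num_bound k n t (Nat.one_le_iff_ne_zero.mpr (NeZero.ne k))
      (Nat.one_le_iff_ne_zero.mpr (NeZero.ne t)) G

/-- Exponential sums with shared factors and a deterministic product, bounded laws. -/
theorem law_bdd [NeZero k] {n : ℕ} (c0 : ℝ) {be : Fin q → ℕ}
    (hbe : ∑ j, be j ≤ n + 1) {al : Fin k → Fin q → ℕ}
    (hal : ∀ i, ∑ j, al i j ≤ n) {c a : Fin k ⊕ Fin q → Fin t → ℝ} (hc : ∀ b, ∃ s, c b s ≠ 0)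
    (ν : Fin k ⊕ Fin q → Fin t → Measure ℝ)
    [∀ b s, IsProbabilityMeasure (ν b s)] (G : ℝ≥0)
    (hν : ∀ b s, ∃ B : ℝ≥0, ν b s ≤ (B : ℝ≥0∞) • (volume : Measure ℝ) ∧
      ∀ᵐ x ∂(ν b s), (B : ℝ) * |x| ≤ G) :
    ∫⁻ v, (({y : ℝ | FF c0 be al c a v y = 0}.encard : ℕ∞) : ℝ≥0∞) ∂(PP ν) ≤
      132 * (k : ℝ≥0∞) ^ 2 * ((n : ℝ≥0∞) + 1) ^ 2 * (t : ℝ≥0∞) ^ 3 * G * (1 + t * G) := by
  choose B hB hA using hν
  have hB0 : ∀ b s, (B b s : ℝ) ≠ 0 := fun b s => dens_pos (hB b s)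
  have hprob : ∀ b s, IsProbabilityMeasure ((ν b s).map fun x => (B b s : ℝ) * x) := fun b s =>
    Measure.isProbabilityMeasure_map (measurable_const_mul _).aemeasurable
  have hle : ∀ b s, (ν b s).map (fun x => (B b s : ℝ) * x) ≤ (volume : Measure ℝ) := fun b s =>
    dens_scale (hB b s)
  have hbd : ∀ b s, ∀ᵐ x ∂((ν b s).map fun x => (B b s : ℝ) * x), |x| ≤ (G : ℝ) := by
    intro b s
    have hms : MeasurableSet {x : ℝ | |x| ≤ (G : ℝ)} :=
      (isClosed_le continuous_abs continuous_const).measurableSet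
    refine (ae_map_iff (measurable_const_mul _).aemeasurable hms).mpr ?_
    filter_upwards [hA b s] with x hx
    rw [abs_mul, abs_of_nonneg (NNReal.coe_nonneg (B b s))]
    exact hx
  have hmom : ∀ b s, ∫⁻ x, ‖x‖ₑ ∂((ν b s).map fun x => (B b s : ℝ) * x) ≤ G := by
    intro b s
    calc ∫⁻ x, ‖x‖ₑ ∂((ν b s).map fun x => (B b s : ℝ) * x)
        ≤ ∫⁻ _x, (G : ℝ≥0∞) ∂((ν b s).map fun x => (B b s : ℝ) * x) := by
          refine lintegral_mono_ae ?_
          filter_upwards [hbd b s] with x hx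
          rw [Real.enorm_eq_ofReal_abs, ← ENNReal.ofReal_coe_nnreal]
          exact ENNReal.ofReal_le_ofReal hx
      _ = G := by rw [lintegral_const, measure_univ, mul_one]
  -- positivity of `G`
  have hG0 : 0 < (G : ℝ) := by
    rcases (NNReal.coe_nonneg G).lt_or_eq with h | h
    · exact h
    · exfalso
      have hz : ∀ᵐ x ∂((ν (Sum.inl 0) 0).map fun x => (B (Sum.inl 0) 0 : ℝ) * x),
          x ∈ ({0} : Set ℝ) := by
        filter_upwards [hbd (Sum.inl 0) 0] with x hx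
        rw [← h] at hx
        exact abs_nonpos_iff.mp hx
      have h2 : ((ν (Sum.inl 0) 0).map fun x => (B (Sum.inl 0) 0 : ℝ) * x) {0} = 1 :=
        (mem_ae_iff_prob_eq_one (measurableSet_singleton 0)).mp hz
      have h4 := hle (Sum.inl 0) 0 {(0 : ℝ)}
      rw [h2, measure_singleton] at h4
      exact absurd h4 (by simp)
  have hK : 0 < (k : ℝ) * ((t : ℝ) * (G : ℝ)) := by
    have h1 : (0 : ℝ) < k := by exact_mod_cast Nat.pos_of_ne_zero (NeZero.ne k)
    have h2 : (0 : ℝ) < t := by exact_mod_cast Nat.pos_of_ne_zero (NeZero.ne t)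
    positivity
  have hae : ∀ᵐ v ∂(PP fun b s => (ν b s).map fun x => (B b s : ℝ) * x),
      ∀ b s, |v b s| ≤ (G : ℝ) := by
    rw [ae_all_iff]
    intro b
    rw [ae_all_iff]
    intro s
    have h1 := (Measure.quasiMeasurePreserving_eval
      (μ := fun s => (ν b s).map fun x => (B b s : ℝ) * x) s).ae (hbd b s)
    exact (Measure.quasiMeasurePreserving_eval
      (μ := fun b => Measure.pi fun s => (ν b s).map fun x => (B b s : ℝ) * x) b).ae h1
  rw [scale_count c0 be al c a ν (fun b s => (B b s : ℝ)) hB0]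
  refine (main_raw Pool.Agent.T9h48.TA.sMeas sRice' sFixP' sFixQ' Pool.Agent.T9h95.TA.sLogD
    Pool.Agent.T9h67.TA.sMom Pool.Agent.T9h95.TA.sKap Pool.Agent.T9h53.TA.sDrift
    (n := n) hbe hal c0 hK (fun b => by
      obtain ⟨s, hs⟩ := hc b
      exact ⟨s, div_ne_zero hs (hB0 b s)⟩) _ G 1
    (fun b s => ?_) hmom
    (hae.mono fun v hv => good_of_bdd hG0.le c0 be al _ a v hv)).trans ?_
  · rw [ENNReal.coe_one, one_smul]
    exact hle b s
  · refine le_trans ?_ (num_bound' k n t (Nat.one_le_iff_ne_zero.mpr (NeZero.ne k))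
      (Nat.one_le_iff_ne_zero.mpr (NeZero.ne t)) G)
    gcongr
    split_ifs
    · exact zero_le
    · exact le_rfl

end asm

end Pool.Agent.T9h20.TD
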