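import Pool.Agent.T9h20.TC.Asm6

/-!
# The smoothed real tau-conjecture with absent coefficients: one block

The coefficients `c s` of a block may vanish, but not all of them.
-/

set_option autoImplicit false

open MeasureTheory Set
open scoped ENNReal NNReal

namespace Pool.Agent.T9h20.TD

open Pool.Agent.T9h20.TA (mon fn dfn IsSel sel mx gg ta hh kap upd PP continuous_mon
  hasDerivAt_mon hasDerivAt_fn sel_unique mon_le_mx isSel_sel hh_sel continuous_mx SMom SKap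
  SDrift fn_update dfn_update measurable_kap lintegral_lin)

section block

variable {t : ℕ}

theorem c_ne_of_dom {c a : Fin t → ℝ} (hz : ∃ s, c s ≠ 0) {s : Fin t} {y : ℝ}
    (h : ∀ r, |mon c a r y| ≤ |mon c a s y|) : c s ≠ 0 := by
  obtain ⟨r, hr⟩ := hz
  intro h0
  have h1 := h r
  have h2 : mon c a s y = 0 := by
    unfold mon
    rw [h0, zero_mul]
  rw [h2, abs_zero] at h1
  exact Pool.Agent.T9h20.TA.mon_ne hr y (abs_nonpos_iff.mp h1)

theorem mon_ne_of_dom {c a : Fin t → ℝ} (hz : ∃ s, c s ≠ 0) {s : Fin t} {y : ℝ}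
    (h : ∀ r, |mon c a r y| ≤ |mon c a s y|) : mon c a s y ≠ 0 :=
  Pool.Agent.T9h20.TA.mon_ne (c_ne_of_dom hz h) y

variable [NeZero t]

theorem mx_pos {c a : Fin t → ℝ} (hz : ∃ s, c s ≠ 0) (y : ℝ) : 0 < mx c a y :=
  abs_pos.mpr (mon_ne_of_dom hz (isSel_sel c a y).1)

theorem abs_gg_le {c a : Fin t → ℝ} (hz : ∃ s, c s ≠ 0) (s : Fin t) (y : ℝ) :
    |gg c a s y| ≤ 1 := by
  unfold gg
  rw [abs_div, abs_of_pos (mx_pos hz y), div_le_one (mx_pos hz y)]
  exact mon_le_mx c a s y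

theorem abs_gg_sel {c a : Fin t → ℝ} (hz : ∃ s, c s ≠ 0) (y : ℝ) :
    |gg c a (sel c a y) y| = 1 := by
  unfold gg
  rw [abs_div, abs_of_pos (mx_pos hz y)]
  exact div_self (mx_pos hz y).ne'

theorem fn_eq {c a : Fin t → ℝ} (hz : ∃ s, c s ≠ 0) (v : Fin t → ℝ) (y : ℝ) :
    fn c a v y = mx c a y * ∑ s, v s * gg c a s y := by
  unfold fn gg
  rw [Finset.mul_sum]
  refine Finset.sum_congr rfl fun s _ => ?_
  have := (mx_pos (a := a) hz y).ne'
  field_simp

theorem dfn_eq {c a : Fin t → ℝ} (hz : ∃ s, c s ≠ 0) (v : Fin t → ℝ) (y : ℝ) :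
    dfn c a v y = ta c a y * fn c a v y + mx c a y * ∑ s, v s * hh c a s y := by
  unfold fn dfn hh gg
  rw [Finset.mul_sum, Finset.mul_sum, ← Finset.sum_add_distrib]
  refine Finset.sum_congr rfl fun s _ => ?_
  have := (mx_pos (a := a) hz y).ne'
  field_simp
  ring

theorem dfn_div {c a : Fin t → ℝ} (hz : ∃ s, c s ≠ 0) {v : Fin t → ℝ} {y : ℝ}
    (h : fn c a v y ≠ 0) :
    dfn c a v y / fn c a v y = ta c a y +
      (∑ s, v s * hh c a s y) / (∑ s, v s * gg c a s y) := by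
  have h0 := (mx_pos (a := a) hz y).ne'
  have h1 : (∑ s, v s * gg c a s y) ≠ 0 := by
    intro h2
    exact h (by rw [fn_eq hz, h2, mul_zero])
  rw [dfn_eq hz, add_div, mul_div_assoc, div_self h, mul_one, fn_eq hz, mul_div_mul_left _ _ h0]

/-- The derivative of the own term. -/
theorem deriv_own {c a : Fin t → ℝ} (hz : ∃ s, c s ≠ 0) (v : Fin t → ℝ) (y : ℝ) (s : Fin t)
    (hs : sel c a y = s) :
    ‖(dfn c a (Function.update v s 0) y * mon c a s y -
      fn c a (Function.update v s 0) y * (a s * mon c a s y)) / (mon c a s y) ^ 2‖ₑ =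
      ‖∑ r, v r * hh c a r y‖ₑ := by
  have h1 : dfn c a (Function.update v s 0) y * mon c a s y -
      fn c a (Function.update v s 0) y * (a s * mon c a s y) =
      mon c a s y * (mx c a y * ∑ r, v r * hh c a r y) := by
    rw [dfn_update, fn_update, dfn_eq hz]
    unfold ta
    rw [hs]
    ring
  have h2 : |mon c a s y| = mx c a y := by
    unfold mx
    rw [hs]
  have h3 : mon c a s y ≠ 0 := by
    rw [← hs]
    exact mon_ne_of_dom hz (isSel_sel c a y).1
  have h4 := (mx_pos (a := a) hz y).ne'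
  rw [h1, pow_two, mul_div_mul_left _ _ h3]
  have h5 : |mx c a y * (∑ r, v r * hh c a r y) / mon c a s y| =
      |∑ r, v r * hh c a r y| := by
    rw [abs_div, abs_mul, h2, abs_of_pos (mx_pos hz y), mul_div_assoc, mul_div_cancel₀]
    exact h4
  rw [← Real.enorm_abs, h5, Real.enorm_abs]

theorem ae_block (hM : SMom) {c a : Fin t → ℝ} (hz : ∃ s, c s ≠ 0) (μ : Fin t → Measure ℝ)
    [∀ s, IsProbabilityMeasure (μ s)] (A B : ℝ≥0)
    (hB : ∀ s, μ s ≤ (B : ℝ≥0∞) • (volume : Measure ℝ)) (hA : ∀ s, ∫⁻ x, ‖x‖ₑ ∂(μ s) ≤ A)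
    (y : ℝ) : ∀ᵐ v ∂(Measure.pi μ), fn c a v y ≠ 0 := by
  have h := (hM t μ A B hB hA (fun s => gg c a s y) (sel c a y) (abs_gg_sel hz y)
    (fun s => abs_gg_le hz s y)).2.2 (1 / 2) (by norm_num) le_rfl
  have hfin : ∫⁻ v, ‖∑ s, v s * gg c a s y‖ₑ ^ (-(1 / 2 : ℝ)) ∂(Measure.pi μ) ≠ ∞ := by
    refine ne_top_of_le_ne_top ?_ h
    refine ENNReal.rpow_ne_top_of_nonneg (by norm_num) ?_
    exact ENNReal.add_ne_top.mpr ⟨ENNReal.one_ne_top, ENNReal.mul_ne_top (by simp) (by simp)⟩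
  have hmeas : Measurable fun v : Fin t → ℝ =>
      ‖∑ s, v s * gg c a s y‖ₑ ^ (-(1 / 2 : ℝ)) := by
    fun_prop
  filter_upwards [ae_lt_top hmeas hfin] with v hv h0
  rw [fn_eq hz] at h0
  have h1 : ∑ s, v s * gg c a s y = 0 :=
    (mul_eq_zero.mp h0).resolve_left (mx_pos hz y).ne'
  rw [h1, enorm_zero, ENNReal.zero_rpow_of_neg (by norm_num)] at hv
  exact lt_irrefl _ hv

/-! ### Filling the absent coefficients -/

/-- Replace the absent terms by half of the term `r`. -/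
noncomputable def fc (c : Fin t → ℝ) (r : Fin t) (s : Fin t) : ℝ :=
  if c s = 0 then c r / 2 else c s

noncomputable def fa (c a : Fin t → ℝ) (r : Fin t) (s : Fin t) : ℝ :=
  if c s = 0 then a r else a s

omit [NeZero t] in
theorem fc_ne {c : Fin t → ℝ} {r : Fin t} (hr : c r ≠ 0) (s : Fin t) : fc c r s ≠ 0 := by
  unfold fc
  split_ifs with h
  · exact div_ne_zero hr two_ne_zero
  · exact h

theorem sel_fill {c a : Fin t → ℝ} {r : Fin t} (hr : c r ≠ 0) (y : ℝ) :
    sel (fc c r) (fa c a r) y = sel c a y := by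
  have hz : ∃ s, c s ≠ 0 := ⟨r, hr⟩
  have h := isSel_sel c a y
  have hs : c (sel c a y) ≠ 0 := c_ne_of_dom hz h.1
  have e1 : ∀ s, c s ≠ 0 → mon (fc c r) (fa c a r) s y = mon c a s y := by
    intro s hs'
    unfold mon fc fa
    rw [if_neg hs', if_neg hs']
  have e2 : ∀ s, c s = 0 → |mon (fc c r) (fa c a r) s y| < |mon c a (sel c a y) y| := by
    intro s hs'
    have h3 : mon (fc c r) (fa c a r) s y = mon c a r y / 2 := by
      unfold mon fc fa
      rw [if_pos hs', if_pos hs']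
      ring
    rw [h3, abs_div, abs_two]
    have h4 := h.1 r
    have h5 : 0 < |mon c a r y| := abs_pos.mpr (Pool.Agent.T9h20.TA.mon_ne hr y)
    linarith
  refine sel_unique ⟨fun s => ?_, fun s hlt => ?_⟩
  · rw [e1 _ hs]
    by_cases hs' : c s = 0
    · exact (e2 s hs').le
    · rw [e1 s hs']
      exact h.1 s
  · rw [e1 _ hs]
    by_cases hs' : c s = 0
    · exact e2 s hs'
    · rw [e1 s hs']
      exact h.2 s hlt

theorem ta_fill {c a : Fin t → ℝ} {r : Fin t} (hr : c r ≠ 0) (y : ℝ) :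
    ta (fc c r) (fa c a r) y = ta c a y := by
  unfold ta
  rw [sel_fill hr]
  unfold fa
  rw [if_neg (c_ne_of_dom ⟨r, hr⟩ (isSel_sel c a y).1)]

theorem mx_fill {c a : Fin t → ℝ} {r : Fin t} (hr : c r ≠ 0) (y : ℝ) :
    mx (fc c r) (fa c a r) y = mx c a y := by
  unfold mx
  rw [sel_fill hr]
  unfold mon fc fa
  rw [if_neg (c_ne_of_dom ⟨r, hr⟩ (isSel_sel c a y).1),
    if_neg (c_ne_of_dom ⟨r, hr⟩ (isSel_sel c a y).1)]

theorem kap_fill {c a : Fin t → ℝ} {r : Fin t} (hr : c r ≠ 0) (y : ℝ) :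
    kap c a y ≤ kap (fc c r) (fa c a r) y := by
  unfold kap
  refine Finset.sum_le_sum fun s _ => ?_
  by_cases hs : c s = 0
  · have : hh c a s y = 0 := by
      unfold hh gg mon
      rw [hs]
      simp
    rw [this, enorm_zero]
    exact zero_le
  · have : hh (fc c r) (fa c a r) s y = hh c a s y := by
      unfold hh gg
      rw [ta_fill hr, mx_fill hr]
      unfold mon fc fa
      rw [if_neg hs, if_neg hs]
    rw [this]

/-- (F) with absent coefficients. -/
theorem kapZ (hF : SKap) {c a : Fin t → ℝ} (hz : ∃ s, c s ≠ 0) :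
    ∫⁻ y, kap c a y ≤ (t : ℝ≥0∞) ^ 2 := by
  obtain ⟨r, hr⟩ := hz
  exact (lintegral_mono fun y => kap_fill hr y).trans (hF t _ _ (fc_ne hr))

/-- (G) with absent coefficients. -/
theorem driftZ (hG : SDrift) (n : ℕ) (c a : Fin n → Fin t → ℝ) (e : Fin n → ℝ) (θ : ℝ)
    (hz : ∀ j, ∃ s, c j s ≠ 0) (hθ : 0 < θ) :
    ∫⁻ y, ENNReal.ofReal (|∑ j, e j * ta (c j) (a j) y| *
      Real.exp (-(θ * |∑ j, e j * Real.log (mx (c j) (a j) y)|))) ≤
      ENNReal.ofReal ((n * (t : ℝ) ^ 2 + 1) * (2 / θ)) := by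
  choose r hr using hz
  have h := hG n t (fun j => fc (c j) (r j)) (fun j => fa (c j) (a j) (r j)) e θ
    (fun j s => fc_ne (hr j) s) hθ
  simp only [ta_fill (hr _), mx_fill (hr _)] at h
  exact h

end block

end Pool.Agent.T9h20.TD
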