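import Pool.Agent.T9h20.TD.Basic

/-!
# The smoothed real tau-conjecture with absent coefficients: the zeros of one factor
-/

set_option autoImplicit false

open MeasureTheory Set
open scoped ENNReal NNReal

namespace Pool.Agent.T9h20.TD

open Pool.Agent.T9h20.TA (mon fn dfn IsSel sel mx gg ta hh kap upd PP continuous_mon
  hasDerivAt_mon hasDerivAt_fn sel_unique mon_le_mx isSel_sel hh_sel continuous_mx SMom SKap
  SDrift SRice fn_update dfn_update measurable_kap lintegral_lin isProb_PP sum_lintegral_le)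
open Pool.Agent.T9h20.TB (rho eta K0 U0 D0 isClosed_K0 isOpen_U0 measurable_D0
  continuous_fn₂ continuous_upd upd_upd upd_same measurable_eta lintegral_eta D0_eq')

section blocks

variable {k q t : ℕ}

/-- Rice inequality for the zeros of the factor `b`. -/
theorem rice0 (hR : SRice) (c a : Fin k ⊕ Fin q → Fin t → ℝ)
    (hc : ∀ b, ∃ s, c b s ≠ 0) (μ : Fin k ⊕ Fin q → Fin t → Measure ℝ)
    [∀ b s, IsProbabilityMeasure (μ b s)] (B : ℝ≥0)
    (hB : ∀ b s, μ b s ≤ (B : ℝ≥0∞) • (volume : Measure ℝ)) (b : Fin k ⊕ Fin q)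
    (s : Fin t) :
    ∫⁻ v, (({y : ℝ | (v, y) ∈ K0 c a b s ∧ (v, y) ∈ U0 c a b s ∧
        fn (c b) (a b) (v b) y = 0}.encard : ℕ∞) : ℝ≥0∞) ∂(PP μ) ≤
      B * ∫⁻ y, ∫⁻ v, (K0 c a b s ∩ U0 c a b s).indicator (fun p => ‖D0 c a b s p.1 p.2‖ₑ)
        (v, y) ∂(PP μ) := by
  have h := hR (Fin k ⊕ Fin q) t μ B b s (hB _ _) (K0 c a b s) (U0 c a b s)
    (fun _ y => mon (c b) (a b) s y) (fun v y => fn (c b) (a b) (upd v b s 0 b) y)
    (D0 c a b s) (isClosed_K0 c a b s) (isOpen_U0 c a b s)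
    ((continuous_mon _ _ s).comp continuous_snd)
    ((continuous_fn₂ c a b).comp (((continuous_upd b s 0).comp continuous_fst).prodMk
      continuous_snd)) (measurable_D0 c a b s)
    (fun v x y => Iff.rfl) (fun v x y => Iff.rfl) (fun v x => rfl)
    (fun v x => by funext y; rw [upd_upd])
    (fun v x => by funext y; unfold D0; rw [upd_upd])
    (fun v y hK _ => by
      have hm : mon (c b) (a b) s y ≠ 0 := mon_ne_of_dom (hc b) hK
      exact ⟨hm, (hasDerivAt_fn _ _ _ y).neg.div (hasDerivAt_mon _ _ s y) hm⟩)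
  have e : ∀ (v : Fin k ⊕ Fin q → Fin t → ℝ) (y : ℝ),
      v b s * mon (c b) (a b) s y + fn (c b) (a b) (upd v b s 0 b) y =
        fn (c b) (a b) (v b) y := by
    intro v y
    rw [upd_same, fn_update]
    ring
  simp only [e] at h
  exact h

variable [NeZero t]

theorem fn_rho {c a : Fin k ⊕ Fin q → Fin t → ℝ} (hc : ∀ b, ∃ s, c b s ≠ 0)
    (v : Fin k ⊕ Fin q → Fin t → ℝ) (y : ℝ) (b : Fin k ⊕ Fin q) :
    fn (c b) (a b) (v b) y = mx (c b) (a b) y * rho c a v y b :=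
  fn_eq (hc b) (v b) y

theorem D0_eq {c a : Fin k ⊕ Fin q → Fin t → ℝ} (hc : ∀ b, ∃ s, c b s ≠ 0)
    {v : Fin k ⊕ Fin q → Fin t → ℝ} {y : ℝ} {b : Fin k ⊕ Fin q} {s : Fin t}
    (hK : (v, y) ∈ K0 c a b s) (hU : (v, y) ∈ U0 c a b s) :
    ‖D0 c a b s v y‖ₑ = ‖eta c a v y b‖ₑ := by
  have hs : sel (c b) (a b) y = s := sel_unique ⟨hK, hU⟩
  have h := deriv_own (hc b) (v b) y s hs
  rw [D0_eq', enorm_neg]
  exact h

theorem ae_ne (hM : SMom) {c a : Fin k ⊕ Fin q → Fin t → ℝ} (hc : ∀ b, ∃ s, c b s ≠ 0)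
    (μ : Fin k ⊕ Fin q → Fin t → Measure ℝ)
    [∀ b s, IsProbabilityMeasure (μ b s)] (A B : ℝ≥0)
    (hB : ∀ b s, μ b s ≤ (B : ℝ≥0∞) • (volume : Measure ℝ))
    (hA : ∀ b s, ∫⁻ x, ‖x‖ₑ ∂(μ b s) ≤ A) (y : ℝ) :
    ∀ᵐ v ∂(PP μ), ∀ b, fn (c b) (a b) (v b) y ≠ 0 := by
  rw [ae_all_iff]
  intro b
  have h := ae_block hM (hc b) (μ b) A B (hB b) (hA b) (a := a b) y
  exact (Measure.quasiMeasurePreserving_eval (μ := fun b => Measure.pi (μ b)) b).ae h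

/-- The expectation for fixed `y`, one factor. -/
theorem fix0 {c a : Fin k ⊕ Fin q → Fin t → ℝ} (hc : ∀ b, ∃ s, c b s ≠ 0)
    (μ : Fin k ⊕ Fin q → Fin t → Measure ℝ)
    [∀ b s, IsProbabilityMeasure (μ b s)] (A : ℝ≥0)
    (hA : ∀ b s, ∫⁻ x, ‖x‖ₑ ∂(μ b s) ≤ A) (y : ℝ) (b : Fin k ⊕ Fin q) :
    ∑ s, ∫⁻ v, (K0 c a b s ∩ U0 c a b s).indicator (fun p => ‖D0 c a b s p.1 p.2‖ₑ)
        (v, y) ∂(PP μ) ≤ A * kap (c b) (a b) y := by
  classical
  set s0 := sel (c b) (a b) y with hs0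
  have h1 : ∑ s, ∫⁻ v, (K0 c a b s ∩ U0 c a b s).indicator (fun p => ‖D0 c a b s p.1 p.2‖ₑ)
        (v, y) ∂(PP μ) = ∫⁻ v, (K0 c a b s0 ∩ U0 c a b s0).indicator
          (fun p => ‖D0 c a b s0 p.1 p.2‖ₑ) (v, y) ∂(PP μ) := by
    refine Finset.sum_eq_single s0 (fun s _ hs => ?_) (fun h => absurd (Finset.mem_univ _) h)
    have : ∀ v : Fin k ⊕ Fin q → Fin t → ℝ, (K0 c a b s ∩ U0 c a b s).indicator
        (fun p => ‖D0 c a b s p.1 p.2‖ₑ) (v, y) = 0 := by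
      intro v
      refine Set.indicator_of_notMem (fun hmem => hs ?_) _
      exact (sel_unique ⟨hmem.1, hmem.2⟩).symm
    simp only [this, lintegral_zero]
  rw [h1]
  refine le_trans (lintegral_mono fun v => ?_) (lintegral_eta μ A hA b y)
  by_cases hmem : (v, y) ∈ K0 c a b s0 ∩ U0 c a b s0
  · rw [Set.indicator_of_mem hmem]
    exact (D0_eq hc hmem.1 hmem.2).le
  · rw [Set.indicator_of_notMem hmem]
    exact zero_le

theorem piv0 (hR : SRice) (hF : SKap)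
    {c a : Fin k ⊕ Fin q → Fin t → ℝ} (hc : ∀ b, ∃ s, c b s ≠ 0)
    (μ : Fin k ⊕ Fin q → Fin t → Measure ℝ)
    [∀ b s, IsProbabilityMeasure (μ b s)] (A B : ℝ≥0)
    (hB : ∀ b s, μ b s ≤ (B : ℝ≥0∞) • (volume : Measure ℝ))
    (hA : ∀ b s, ∫⁻ x, ‖x‖ₑ ∂(μ b s) ≤ A) (b : Fin k ⊕ Fin q) :
    ∑ s, ∫⁻ v, (({y : ℝ | (v, y) ∈ K0 c a b s ∧ (v, y) ∈ U0 c a b s ∧
        fn (c b) (a b) (v b) y = 0}.encard : ℕ∞) : ℝ≥0∞) ∂(PP μ) ≤
      B * (A * (t : ℝ≥0∞) ^ 2) := by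
  calc ∑ s, ∫⁻ v, (({y : ℝ | (v, y) ∈ K0 c a b s ∧ (v, y) ∈ U0 c a b s ∧
        fn (c b) (a b) (v b) y = 0}.encard : ℕ∞) : ℝ≥0∞) ∂(PP μ)
      ≤ ∑ s, B * ∫⁻ y, ∫⁻ v, (K0 c a b s ∩ U0 c a b s).indicator
          (fun p => ‖D0 c a b s p.1 p.2‖ₑ) (v, y) ∂(PP μ) :=
        Finset.sum_le_sum fun s _ => rice0 hR c a hc μ B hB b s
    _ = B * ∑ s, ∫⁻ y, ∫⁻ v, (K0 c a b s ∩ U0 c a b s).indicator
          (fun p => ‖D0 c a b s p.1 p.2‖ₑ) (v, y) ∂(PP μ) := by rw [Finset.mul_sum]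
    _ ≤ B * ∫⁻ y, ∑ s, ∫⁻ v, (K0 c a b s ∩ U0 c a b s).indicator
          (fun p => ‖D0 c a b s p.1 p.2‖ₑ) (v, y) ∂(PP μ) := by
        gcongr
        exact sum_lintegral_le _ _
    _ ≤ B * ∫⁻ y, A * kap (c b) (a b) y := by
        gcongr with y
        exact fix0 hc μ A hA y b
    _ ≤ B * (A * (t : ℝ≥0∞) ^ 2) := by
        gcongr
        rw [lintegral_const_mul _ (measurable_kap _ _)]
        gcongr
        exact kapZ hF (hc _)

/-- The drift integral of a set of blocks. -/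
theorem drift_set (hG : SDrift) {β : Type} {c a : β → Fin t → ℝ} (hc : ∀ b, ∃ s, c b s ≠ 0)
    (S : Finset β) (e : β → ℝ) (θ : ℝ) (hθ : 0 < θ) :
    ∫⁻ y, ENNReal.ofReal (|∑ b ∈ S, e b * ta (c b) (a b) y| *
      Real.exp (-(θ * |∑ b ∈ S, e b * Real.log (mx (c b) (a b) y)|))) ≤
      ENNReal.ofReal ((S.card * (t : ℝ) ^ 2 + 1) * (2 / θ)) := by
  have h := driftZ hG S.card (fun j => c (S.equivFin.symm j)) (fun j => a (S.equivFin.symm j))
    (fun j => e (S.equivFin.symm j)) θ (fun j => hc _) hθ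
  have e1 : ∀ F : β → ℝ, ∑ j : Fin S.card, F (S.equivFin.symm j) = ∑ b ∈ S, F b := by
    intro F
    rw [← Finset.sum_coe_sort S F]
    exact Equiv.sum_comp S.equivFin.symm fun b : S => F b
  have e2 : ∀ y, ∑ j : Fin S.card, e (S.equivFin.symm j) *
      ta (c (S.equivFin.symm j)) (a (S.equivFin.symm j)) y =
      ∑ b ∈ S, e b * ta (c b) (a b) y := fun y => e1 fun b => e b * ta (c b) (a b) y
  have e3 : ∀ y, ∑ j : Fin S.card, e (S.equivFin.symm j) *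
      Real.log (mx (c (S.equivFin.symm j)) (a (S.equivFin.symm j)) y) =
      ∑ b ∈ S, e b * Real.log (mx (c b) (a b) y) := fun y =>
    e1 fun b => e b * Real.log (mx (c b) (a b) y)
  simp only [e2, e3] at h
  exact h

/-- The drift integral with an additive constant. -/
theorem drift_const (hG : SDrift) {β : Type} {c a : β → Fin t → ℝ}
    (hc : ∀ b, ∃ s, c b s ≠ 0)
    (S : Finset β) (e : β → ℝ) (b1 : β) (hb1 : b1 ∈ S) (he : e b1 = -1) (C θ : ℝ)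
    (hθ : 0 < θ) :
    ∫⁻ y, ENNReal.ofReal (|∑ b ∈ S, e b * ta (c b) (a b) y| *
      Real.exp (-(θ * |C + ∑ b ∈ S, e b * Real.log (mx (c b) (a b) y)|))) ≤
      ENNReal.ofReal ((S.card * (t : ℝ) ^ 2 + 1) * (2 / θ)) := by
  classical
  set κ : β → ℝ := fun b => Real.exp (if b = b1 then -C else 0) with hκ
  have hκ0 : ∀ b, 0 < κ b := fun b => Real.exp_pos _
  have h := drift_set hG (c := fun b s => κ b * c b s) (a := a)
    (fun b => by
      obtain ⟨s, hs⟩ := hc b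
      exact ⟨s, mul_ne_zero (hκ0 b).ne' hs⟩) S e θ hθ
  have e1 : ∀ b y, ta (fun s => κ b * c b s) (a b) y = ta (c b) (a b) y := fun b y =>
    Pool.Agent.T9h20.TC.ta_scale (c b) (a b) (κ b) (hκ0 b) y
  have e2 : ∀ b y, Real.log (mx (fun s => κ b * c b s) (a b) y) =
      (if b = b1 then -C else 0) + Real.log (mx (c b) (a b) y) := by
    intro b y
    rw [Pool.Agent.T9h20.TC.mx_scale (c b) (a b) (κ b) (hκ0 b) y,
      Real.log_mul (hκ0 b).ne' (mx_pos (hc b) y).ne', hκ, Real.log_exp]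
  have e3 : ∀ y, ∑ b ∈ S, e b * ((if b = b1 then -C else 0) + Real.log (mx (c b) (a b) y)) =
      C + ∑ b ∈ S, e b * Real.log (mx (c b) (a b) y) := by
    intro y
    simp only [mul_add, Finset.sum_add_distrib]
    congr 1
    rw [Finset.sum_eq_single_of_mem b1 hb1]
    · rw [if_pos rfl, he]
      ring
    · intro b _ hb
      rw [if_neg hb, mul_zero]
  simp only [e1, e2, e3] at h
  exact h

end blocks

end Pool.Agent.T9h20.TD
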