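import Pool.Agent.T9h20.TD.Poly

/-!
# The smoothed real tau-conjecture: sums of `k` products of `m` factors
-/

set_option autoImplicit false

open MeasureTheory Set ProbabilityTheory
open scoped ENNReal NNReal

namespace Pool.Agent.T9h20.TD

section kmt

variable {k n t : ℕ}

/-- The product with the private factor `(i, 0)` contains the shared factors `(i, r + 1)`. -/
def al' (k n : ℕ) (i : Fin k) (j : Fin (k * n)) : ℕ :=
  if (finProdFinEquiv.symm j).1 = i then 1 else 0

/-- Rearrangement of the blocks. -/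
def re {X : Type*} (u : Fin k → Fin (n + 1) → X) : Fin k ⊕ Fin (k * n) → X :=
  Sum.elim (fun i => u i 0)
    fun j => u (finProdFinEquiv.symm j).1 (finProdFinEquiv.symm j).2.succ

theorem prod_al' (i : Fin k) (F : Fin k → Fin n → ℝ) :
    ∏ j : Fin (k * n), F (finProdFinEquiv.symm j).1 (finProdFinEquiv.symm j).2 ^ al' k n i j =
      ∏ r : Fin n, F i r := by
  have h1 : ∏ j : Fin (k * n),
      F (finProdFinEquiv.symm j).1 (finProdFinEquiv.symm j).2 ^ al' k n i j =
      ∏ p : Fin k × Fin n, F p.1 p.2 ^ (if p.1 = i then 1 else 0) := by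
    refine Fintype.prod_equiv finProdFinEquiv.symm _ _ fun j => ?_
    rfl
  rw [h1, Fintype.prod_prod_type]
  rw [Finset.prod_eq_single i]
  · simp
  · intro i' _ hi'
    simp [hi']
  · intro h
    exact absurd (Finset.mem_univ _) h

theorem sum_al' (i : Fin k) : ∑ j : Fin (k * n), al' k n i j = n := by
  have h1 : ∑ j : Fin (k * n), al' k n i j =
      ∑ p : Fin k × Fin n, (if p.1 = i then 1 else 0) := by
    refine Fintype.sum_equiv finProdFinEquiv.symm _ _ fun j => ?_
    rfl
  rw [h1, Fintype.sum_prod_type]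
  rw [Finset.sum_eq_single i]
  · simp
  · intro i' _ hi'
    simp [hi']
  · intro h
    exact absurd (Finset.mem_univ _) h

theorem ev_re (e : Fin k → Fin (n + 1) → Fin t → ℕ) (u : Fin k → Fin (n + 1) → Fin t → ℝ)
    (x : ℝ) : Pool.Agent.T9h20.TC.ev 0 0 (al' k n) (re e) (re u) x =
      Pool.Agent.T9h20.TA.ev e u x := by
  unfold Pool.Agent.T9h20.TC.ev Pool.Agent.T9h20.TA.ev
  rw [zero_mul, zero_add]
  refine Finset.sum_congr rfl fun i _ => ?_
  rw [Fin.prod_univ_succ]
  congr 1
  exact prod_al' i fun i r => ∑ s, u i r.succ s * x ^ e i r.succ s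

/-- Expected number of real zeros, `k` products of `m` factors with at most `t` terms. -/
theorem kmt_gen {Ω : Type*} [MeasurableSpace Ω] (P : Measure Ω) [IsProbabilityMeasure P]
    {m : ℕ} (hk : 1 ≤ k) (hm : 1 ≤ m) (ht : 1 ≤ t) (e : Fin k → Fin m → Fin t → ℕ)
    (c : Fin k → Fin m → Fin t → ℝ) (hc : ∀ i j, ∃ s, c i j s ≠ 0)
    (w : Fin k → Fin m → Fin t → Ω → ℝ) (hw : ∀ i j s, Measurable (w i j s))
    (hind : iIndepFun (fun p : Fin k × Fin m × Fin t => w p.1 p.2.1 p.2.2) P)
    (G : ℝ≥0) (hG : ∀ i j s, ∃ B : ℝ≥0, P.map (w i j s) ≤ (B : ℝ≥0∞) • (volume : Measure ℝ) ∧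
      (B : ℝ≥0∞) * ∫⁻ ω, ‖w i j s ω‖ₑ ∂P ≤ G) :
    ∫⁻ ω, (({x : ℝ | Pool.Agent.T9h20.TA.ev e (fun i j s => c i j s * w i j s ω) x =
        0}.encard : ℕ∞) : ℝ≥0∞) ∂P ≤
      1 + 132 * (k : ℝ≥0∞) ^ 2 * (m : ℝ≥0∞) ^ 2 * (t : ℝ≥0∞) ^ 3 * G * (1 + t * G) := by
  obtain ⟨n, rfl⟩ : ∃ n, m = n + 1 := ⟨m - 1, by omega⟩
  -- the independence of the rearranged family
  set g : (Fin k ⊕ Fin (k * n)) × Fin t → Fin k × Fin (n + 1) × Fin t := fun p =>
    (Sum.elim (fun i => i) (fun j => (finProdFinEquiv.symm j).1) p.1,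
      Sum.elim (fun _ => 0) (fun j => (finProdFinEquiv.symm j).2.succ) p.1, p.2) with hg
  have hginj : Function.Injective g := by
    rintro ⟨b, s⟩ ⟨b', s'⟩ h
    simp only [hg, Prod.mk.injEq] at h
    obtain ⟨h1, h2, h3⟩ := h
    subst h3
    rcases b with i | j <;> rcases b' with i' | j'
    · simp only [Sum.elim_inl] at h1
      rw [h1]
    · simp only [Sum.elim_inl, Sum.elim_inr] at h2
      exact absurd h2.symm (Fin.succ_ne_zero _)
    · simp only [Sum.elim_inl, Sum.elim_inr] at h2
      exact absurd h2 (Fin.succ_ne_zero _)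
    · simp only [Sum.elim_inr] at h1 h2
      have h4 : finProdFinEquiv.symm j = finProdFinEquiv.symm j' :=
        Prod.ext h1 (Fin.succ_injective _ h2)
      rw [finProdFinEquiv.symm.injective h4]
  have hind' : iIndepFun (fun p : (Fin k ⊕ Fin (k * n)) × Fin t => re w p.1 p.2) P := by
    have h := hind.precomp hginj
    have e1 : (fun p : (Fin k ⊕ Fin (k * n)) × Fin t => re w p.1 p.2) =
        fun p => w (g p).1 (g p).2.1 (g p).2.2 := by
      funext p
      rcases p with ⟨b, s⟩
      rcases b with i | j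
      · rfl
      · rfl
    rw [e1]
    exact h
  have h := main_gen P hk ht (q := k * n) (m := n + 1) 0 (al' k n)
    (fun i => by rw [sum_al']; omega) (re e) (re c)
    (fun b => by
      rcases b with i | j
      · exact hc i 0
      · exact hc _ _) (re w)
    (fun b s => by
      rcases b with i | j
      · exact hw i 0 s
      · exact hw _ _ s) hind' G
    (fun b s => by
      rcases b with i | j
      · exact hG i 0 s
      · exact hG _ _ s)
  have e2 : ∀ ω, (fun (b : Fin k ⊕ Fin (k * n)) s => re c b s * re w b s ω) =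
      re fun i j s => c i j s * w i j s ω := by
    intro ω
    funext b s
    rcases b with i | j
    · rfl
    · rfl
  simp only [e2, ev_re] at h
  exact h

end kmt

end Pool.Agent.T9h20.TD
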