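import Pool.Agent.T9h20.TD.Asm

/-!
# The smoothed real tau-conjecture with absent coefficients: polynomials
-/

set_option autoImplicit false

open MeasureTheory Set ProbabilityTheory
open scoped ENNReal NNReal

namespace Pool.Agent.T9h20.TD

open Pool.Agent.T9h20.TA (mon fn PP isProb_PP)
open Pool.Agent.T9h20.TC (PR FF FF_zero ev from_exp joint_law measurable_count noise' num2')

section poly

variable {k q t : ℕ}

theorem FF_mul (c0 : ℝ) (be : Fin q → ℕ) (al : Fin k → Fin q → ℕ)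
    (c1 c a w : Fin k ⊕ Fin q → Fin t → ℝ) :
    FF c0 be al c1 a (fun b s => c b s * w b s) =
      FF c0 be al (fun b s => c1 b s * c b s) a w := by
  have h : ∀ b y, fn (c1 b) (a b) (fun s => c b s * w b s) y =
      fn (fun s => c1 b s * c b s) (a b) (w b) y := by
    intro b y
    unfold fn mon
    refine Finset.sum_congr rfl fun s _ => ?_
    ring
  funext y
  unfold FF PR
  simp only [h]

/-- Shared factors, general laws. -/
theorem main_gen {Ω : Type*} [MeasurableSpace Ω] (P : Measure Ω) [IsProbabilityMeasure P]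
    {m : ℕ} (hk : 1 ≤ k) (ht : 1 ≤ t) (be : Fin q → ℕ) (al : Fin k → Fin q → ℕ)
    (hal : ∀ i, 1 + ∑ j, al i j ≤ m)
    (e : Fin k ⊕ Fin q → Fin t → ℕ) (c : Fin k ⊕ Fin q → Fin t → ℝ)
    (hc : ∀ b, ∃ s, c b s ≠ 0)
    (w : Fin k ⊕ Fin q → Fin t → Ω → ℝ) (hw : ∀ b s, Measurable (w b s))
    (hind : iIndepFun (fun p : (Fin k ⊕ Fin q) × Fin t => w p.1 p.2) P)
    (G : ℝ≥0) (hG : ∀ b s, ∃ B : ℝ≥0, P.map (w b s) ≤ (B : ℝ≥0∞) • (volume : Measure ℝ) ∧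
      (B : ℝ≥0∞) * ∫⁻ ω, ‖w b s ω‖ₑ ∂P ≤ G) :
    ∫⁻ ω, (({x : ℝ | ev 0 be al e (fun b s => c b s * w b s ω) x = 0}.encard : ℕ∞) : ℝ≥0∞)
        ∂P ≤
      1 + 132 * (k : ℝ≥0∞) ^ 2 * (m : ℝ≥0∞) ^ 2 * (t : ℝ≥0∞) ^ 3 * G * (1 + t * G) := by
  have : NeZero k := ⟨by omega⟩
  have : NeZero t := ⟨by omega⟩
  obtain ⟨n, rfl⟩ : ∃ n, m = n + 1 := ⟨m - 1, by have := hal 0; omega⟩
  have hal' : ∀ i, ∑ j, al i j ≤ n := fun i => by have := hal i; omega
  have hprob : ∀ b s, IsProbabilityMeasure (P.map (w b s)) :=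
    fun b s => Measure.isProbabilityMeasure_map (hw b s).aemeasurable
  have hν : ∀ b s, ∃ B : ℝ≥0,
      P.map (w b s) ≤ (B : ℝ≥0∞) • (volume : Measure ℝ) ∧
      (B : ℝ≥0∞) * ∫⁻ x, ‖x‖ₑ ∂(P.map (w b s)) ≤ G := by
    intro b s
    obtain ⟨B, h1, h2⟩ := hG b s
    refine ⟨B, h1, ?_⟩
    rw [lintegral_map measurable_enorm (hw _ _)]
    exact h2
  have hJ : Measurable fun ω => fun (b : Fin k ⊕ Fin q) (s : Fin t) => w b s ω :=
    measurable_pi_lambda _ fun b => measurable_pi_lambda _ fun s => hw b s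
  refine (from_exp P 0 be al e (fun b s ω => c b s * w b s ω)
    (fun b s => (hw b s).const_mul _)
    (66 * (k : ℝ≥0∞) ^ 2 * ((n : ℝ≥0∞) + 1) ^ 2 * (t : ℝ≥0∞) ^ 3 * G * (1 + t * G))
    fun c1 hc1 => ?_).trans (le_of_eq ?_)
  · have h := law_gen hal' (c := fun b s => c1 b s * c b s)
      (fun b => by
        obtain ⟨s, hs⟩ := hc b
        exact ⟨s, mul_ne_zero (hc1 b s) hs⟩)
      (a := fun b s => (e b s : ℝ)) (fun b s => P.map (w b s)) G hν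
    rw [← joint_law P w hw hind, lintegral_map (measurable_count _ _ _ _ _) hJ] at h
    simp only [FF_zero be al, FF_mul]
    exact h
  · push_cast
    ring

/-- Shared factors and a deterministic product, bounded laws. -/
theorem main_bdd {Ω : Type*} [MeasurableSpace Ω] (P : Measure Ω) [IsProbabilityMeasure P]
    {m : ℕ} (hk : 1 ≤ k) (ht : 1 ≤ t) (c0 : ℝ) (be : Fin q → ℕ) (hbe : ∑ j, be j ≤ m)
    (al : Fin k → Fin q → ℕ) (hal : ∀ i, 1 + ∑ j, al i j ≤ m)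
    (e : Fin k ⊕ Fin q → Fin t → ℕ) (c : Fin k ⊕ Fin q → Fin t → ℝ)
    (hc : ∀ b, ∃ s, c b s ≠ 0)
    (w : Fin k ⊕ Fin q → Fin t → Ω → ℝ) (hw : ∀ b s, Measurable (w b s))
    (hind : iIndepFun (fun p : (Fin k ⊕ Fin q) × Fin t => w p.1 p.2) P)
    (G : ℝ≥0) (hG : ∀ b s, ∃ B : ℝ≥0, P.map (w b s) ≤ (B : ℝ≥0∞) • (volume : Measure ℝ) ∧
      ∀ᵐ ω ∂P, (B : ℝ) * |w b s ω| ≤ G) :
    ∫⁻ ω, (({x : ℝ | ev c0 be al e (fun b s => c b s * w b s ω) x = 0}.encard :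
        ℕ∞) : ℝ≥0∞) ∂P ≤
      1 + 264 * (k : ℝ≥0∞) ^ 2 * (m : ℝ≥0∞) ^ 2 * (t : ℝ≥0∞) ^ 3 * G * (1 + t * G) := by
  have : NeZero k := ⟨by omega⟩
  have : NeZero t := ⟨by omega⟩
  obtain ⟨n, rfl⟩ : ∃ n, m = n + 1 := ⟨m - 1, by have := hal 0; omega⟩
  have hal' : ∀ i, ∑ j, al i j ≤ n := fun i => by have := hal i; omega
  have hprob : ∀ b s, IsProbabilityMeasure (P.map (w b s)) :=
    fun b s => Measure.isProbabilityMeasure_map (hw b s).aemeasurable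
  have hν : ∀ b s, ∃ B : ℝ≥0,
      P.map (w b s) ≤ (B : ℝ≥0∞) • (volume : Measure ℝ) ∧
      ∀ᵐ x ∂(P.map (w b s)), (B : ℝ) * |x| ≤ G := by
    intro b s
    obtain ⟨B, h1, h2⟩ := hG b s
    refine ⟨B, h1, ?_⟩
    have hms : MeasurableSet {x : ℝ | (B : ℝ) * |x| ≤ G} :=
      (isClosed_le (continuous_const.mul continuous_abs) continuous_const).measurableSet
    exact (ae_map_iff (hw b s).aemeasurable hms).mpr h2
  have hJ : Measurable fun ω => fun (b : Fin k ⊕ Fin q) (s : Fin t) => w b s ω :=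
    measurable_pi_lambda _ fun b => measurable_pi_lambda _ fun s => hw b s
  refine (from_exp P c0 be al e (fun b s ω => c b s * w b s ω)
    (fun b s => (hw b s).const_mul _)
    (132 * (k : ℝ≥0∞) ^ 2 * ((n : ℝ≥0∞) + 1) ^ 2 * (t : ℝ≥0∞) ^ 3 * G * (1 + t * G))
    fun c1 hc1 => ?_).trans (le_of_eq ?_)
  · have h := law_bdd c0 hbe hal' (c := fun b s => c1 b s * c b s)
      (fun b => by
        obtain ⟨s, hs⟩ := hc b
        exact ⟨s, mul_ne_zero (hc1 b s) hs⟩)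
      (a := fun b s => (e b s : ℝ)) (fun b s => P.map (w b s)) G hν
    rw [← joint_law P w hw hind, lintegral_map (measurable_count _ _ _ _ _) hJ] at h
    simp only [FF_mul]
    exact h
  · push_cast
    ring

/-- Smoothed version. -/
theorem main_smooth {Ω : Type*} [MeasurableSpace Ω] (P : Measure Ω) [IsProbabilityMeasure P]
    {m : ℕ} (hk : 1 ≤ k) (ht : 1 ≤ t) (c0 : ℝ) (be : Fin q → ℕ) (hbe : ∑ j, be j ≤ m)
    (al : Fin k → Fin q → ℕ) (hal : ∀ i, 1 + ∑ j, al i j ≤ m)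
    (e : Fin k ⊕ Fin q → Fin t → ℕ) (a τ : Fin k ⊕ Fin q → Fin t → ℝ) (R : ℝ≥0)
    (hτ : ∀ b s, 0 ≤ τ b s) (hτ' : ∀ b, ∃ s, 0 < τ b s) (ha : ∀ b s, |a b s| ≤ R * τ b s)
    (ξ : Fin k ⊕ Fin q → Fin t → Ω → ℝ) (hξ : ∀ b s, Measurable (ξ b s))
    (hind : iIndepFun (fun p : (Fin k ⊕ Fin q) × Fin t => ξ p.1 p.2) P)
    (hlaw : ∀ b s, P.map (ξ b s) =
      (2 : ℝ≥0∞)⁻¹ • (volume : Measure ℝ).restrict (Set.Icc (-1) 1)) :
    ∫⁻ ω, (({x : ℝ | ev c0 be al e (fun b s => a b s + τ b s * ξ b s ω) x = 0}.encard :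
        ℕ∞) : ℝ≥0∞) ∂P ≤
      1 + 198 * (k : ℝ≥0∞) ^ 2 * (m : ℝ≥0∞) ^ 2 * (t : ℝ≥0∞) ^ 4 *
        ((R : ℝ≥0∞) + 1) ^ 2 := by
  have key : ∀ ω, (fun b s => a b s + τ b s * ξ b s ω) =
      fun b s => τ b s * (a b s / τ b s + 1 * ξ b s ω) := by
    intro ω
    funext b s
    rcases (hτ b s).lt_or_eq with h | h
    · rw [mul_add, mul_div_cancel₀ _ h.ne', one_mul]
    · have h0 := ha b s
      rw [← h, mul_zero] at h0
      rw [← h, abs_nonpos_iff.mp h0]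
      ring
  simp only [key]
  have hb : ∀ b s, |a b s / τ b s| ≤ R * 1 := by
    intro b s
    rw [abs_div, abs_of_nonneg (hτ b s), mul_one]
    exact div_le_of_le_mul₀ (hτ b s) (NNReal.coe_nonneg R) (ha b s)
  refine (main_bdd P hk ht c0 be hbe al hal e τ
    (fun b => by
      obtain ⟨s, hs⟩ := hτ' b
      exact ⟨s, hs.ne'⟩) (fun b s ω => a b s / τ b s + 1 * ξ b s ω)
    (fun b s => by have := hξ b s; fun_prop) ?_ ((R + 1) / 2)
    (fun b s => noise' P (ξ b s) (hξ b s) (hlaw b s) (a b s / τ b s) 1 one_pos R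
      (hb b s))).trans (num2' k m t ht R)
  exact hind.comp (fun p x => a p.1 p.2 / τ p.1 p.2 + 1 * x) (fun p => by fun_prop)

end poly

end Pool.Agent.T9h20.TD
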